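import Pool.Agent.V8H9.GD.Man

/-!
# A positive proportion of the defects: conclusion
-/

set_option autoImplicit false

namespace Pool.Agent.V8H9.GD

open Finset Filter Topology
open Pool.Agent.Y884.GR

theorem proportion : ∃ c : ℝ, 0 < c ∧ ∃ x₀ : ℕ, ∀ x : ℕ, x₀ ≤ x → ∀ ε : ℝ, 0 < ε →
    ∀ᶠ X : ℝ in atTop,
      c * x ≤ (((Icc 1 x).filter (fun m => X ^ (1 - ε) ≤ (ct X m : ℝ))).card : ℝ) := by
  classical
  obtain ⟨K, hK, hMT⟩ := maynardTaoAll 1 le_rfl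
  obtain ⟨w, hw⟩ : ∃ w, w = 3 * (K * K) + K + 2 := ⟨_, rfl⟩
  obtain ⟨W, hW⟩ : ∃ W, W = w.factorial := ⟨_, rfl⟩
  obtain ⟨A, hA⟩ : ∃ A, A = 2 * 4 ^ K := ⟨_, rfl⟩
  obtain ⟨C, hC⟩ : ∃ C, C = (16 * (K * K) + 2 * K) * (20 * 4 ^ K + 1) + 1 := ⟨_, rfl⟩
  obtain ⟨k₀, hk₀⟩ := few_exc C
  have hW1 : 1 ≤ W := by rw [hW]; exact Nat.factorial_pos _
  have hA1 : 1 ≤ A := by rw [hA]; have : 1 ≤ 4 ^ K := Nat.one_le_pow _ _ (by norm_num); omega
  have hWr : (1 : ℝ) ≤ W := by exact_mod_cast hW1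
  have hAr : (1 : ℝ) ≤ A := by exact_mod_cast hA1
  have hKr : (2 : ℝ) ≤ K := by exact_mod_cast hK
  have hAW : (1 : ℝ) ≤ A * W := by nlinarith
  refine ⟨1 / (4 * (A * W) * K), by positivity,
    2 ^ (k₀ + 16 * (A * W) * K) + A * (w + 1) + 8 * (A * W) + 2, fun x hx ε hε => ?_⟩
  obtain ⟨z, hz⟩ : ∃ z, z = 2 ^ (k₀ + 16 * (A * W) * K) := ⟨_, rfl⟩
  rw [← hz] at hx
  obtain ⟨y, hy⟩ : ∃ y, y = (x - 2) / A := ⟨_, rfl⟩
  have hwy : w < y := by
    rw [hy]
    have : A * (w + 1) ≤ x - 2 := by omega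
    exact (Nat.le_div_iff_mul_le hA1).2 (by rw [mul_comm]; exact this)
  have hyx : A * y + 2 ≤ x := by
    have : A * y ≤ x - 2 := by rw [hy]; exact Nat.mul_div_le _ _
    omega
  obtain ⟨k, hk⟩ : ∃ k, k = Nat.log 2 x + 1 := ⟨_, rfl⟩
  have hx0 : x ≠ 0 := by omega
  have hxk : x < 2 ^ k := by rw [hk]; exact Nat.lt_pow_succ_log_self (by norm_num) x
  have hkx : 2 ^ k ≤ 2 * x := by
    rw [hk, pow_succ]
    have := Nat.pow_log_le_self 2 hx0
    omega
  have hkk : k₀ + 16 * (A * W) * K ≤ k := by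
    by_contra hcon
    push Not at hcon
    have h1 : 2 ^ k ≤ 2 ^ (k₀ + 16 * (A * W) * K) := Nat.pow_le_pow_right (by norm_num) hcon.le
    rw [← hz] at h1
    omega
  set Bad : Finset ℕ := ((range (2 ^ k)).filter (Exc C)).image (fun m => m - 2) with hBad
  have hBadc : (Bad.card : ℝ) ≤ 2 ^ k / k := by
    refine le_trans ?_ (hk₀ k (by omega))
    rw [hBad]
    exact_mod_cast card_image_le
  have hsc := scale hMT (w := w) (y := y) (by omega) hwy x (by rw [← hA]; exact hyx) Bad (by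
    intro m hm hmle
    rw [← hC] at hm
    rw [← hA] at hmle
    rw [hBad]
    exact mem_image.2 ⟨m, mem_filter.2 ⟨mem_range.2 (by omega), hm⟩, rfl⟩) ε hε
  filter_upwards [hsc] with X hX
  set G := (Icc 1 x).filter (fun m => X ^ (1 - ε) ≤ (ct X m : ℝ)) with hG
  rw [← hW] at hX
  have hXr : ((y / W : ℕ) : ℝ) ≤ K * (G.card + Bad.card) := by exact_mod_cast hX
  have hxr : (8 * (A * W) : ℝ) ≤ x := by
    have : 8 * (A * W) ≤ x := by omega
    exact_mod_cast this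
  have hx0r : (0 : ℝ) ≤ x := Nat.cast_nonneg x
  -- lower bound for the left side
  have h1 : (x : ℝ) / (2 * (A * W)) ≤ ((y / W : ℕ) : ℝ) := by
    have h2 : y < W * (y / W + 1) := by
      have := Nat.lt_mul_div_succ y (show 0 < W by omega)
      simpa using this
    have h3 : x - 2 < A * (y + 1) := by
      rw [hy]
      have := Nat.lt_mul_div_succ (x - 2) (show 0 < A by omega)
      simpa using this
    have h4 : x ≤ A * (y + 1) + 1 := by omega
    have h2r : (y : ℝ) + 1 ≤ W * ((y / W : ℕ) + 1) := by exact_mod_cast h2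
    have h4r : (x : ℝ) ≤ A * (y + 1) + 1 := by exact_mod_cast h4
    set t : ℝ := ((y / W : ℕ) : ℝ) with ht
    have h5 : (x : ℝ) ≤ A * (W * (t + 1)) + 1 :=
      h4r.trans (by nlinarith [mul_le_mul_of_nonneg_left h2r (show (0 : ℝ) ≤ A by linarith)])
    rw [div_le_iff₀ (by positivity)]
    nlinarith
  have h2 : (K : ℝ) * Bad.card ≤ x / (8 * (A * W)) := by
    have hk0 : (16 : ℝ) * (A * W) * K ≤ k := by
      have : 16 * (A * W) * K ≤ k := by omega
      exact_mod_cast this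
    have hkpos : (0 : ℝ) < k := lt_of_lt_of_le (by positivity) hk0
    have h3 : (2 : ℝ) ^ k ≤ 2 * x := by exact_mod_cast hkx
    have h4 : (Bad.card : ℝ) * k ≤ 2 * x := by
      have := (le_div_iff₀ hkpos).1 hBadc
      linarith
    rw [le_div_iff₀ (by positivity)]
    have h5 : (Bad.card : ℝ) * (16 * (A * W) * K) ≤ 2 * x :=
      (mul_le_mul_of_nonneg_left hk0 (Nat.cast_nonneg _)).trans h4
    linarith
  have h3 : (x : ℝ) / (2 * (A * W)) = 4 * (x / (8 * (A * W))) := by field_simp; ring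
  have h4 : (x : ℝ) / (4 * (A * W)) = 2 * (x / (8 * (A * W))) := by field_simp; ring
  have h5 : 0 ≤ (x : ℝ) / (8 * (A * W)) := by positivity
  have h6 : (x : ℝ) / (4 * (A * W)) ≤ K * G.card := by
    rw [h4]
    rw [h3] at h1
    nlinarith
  have h7 : 1 / (4 * ((A : ℝ) * W) * K) * x = (x / (4 * (A * W))) / K := by field_simp
  rw [h7, div_le_iff₀ (by linarith)]
  linarith

open Classical in
/-- from the uniform to the individual statement -/
theorem limsup_form {c : ℝ} {x : ℕ} (f : ℝ → ℕ → ℝ)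
    (h : ∀ ε : ℝ, 0 < ε → ∀ᶠ X : ℝ in atTop,
      c ≤ (((Icc 1 x).filter (fun m => X ^ (1 - ε) ≤ f X m)).card : ℝ)) :
    c ≤ (((Icc 1 x).filter (fun m => ∀ ε : ℝ, 0 < ε → ∃ᶠ X : ℝ in atTop,
      X ^ (1 - ε) ≤ f X m)).card : ℝ) := by
  by_contra hcon
  push Not at hcon
  set H := (Icc 1 x).filter (fun m => ∀ ε : ℝ, 0 < ε → ∃ᶠ X : ℝ in atTop,
      X ^ (1 - ε) ≤ f X m) with hH
  have hex : ∀ m : ℕ, ∃ n : ℕ, m ∈ Icc 1 x → m ∉ H →
      ∀ᶠ X : ℝ in atTop, f X m < X ^ (1 - 1 / ((n : ℝ) + 1)) := by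
    intro m
    by_cases hm : m ∈ Icc 1 x ∧ m ∉ H
    · have h1 : ¬ ∀ ε : ℝ, 0 < ε → ∃ᶠ X : ℝ in atTop, X ^ (1 - ε) ≤ f X m := fun hh =>
        hm.2 (mem_filter.2 ⟨hm.1, hh⟩)
      push Not at h1
      obtain ⟨ε, hε, h2⟩ := h1
      obtain ⟨n, hn⟩ := exists_nat_gt (1 / ε)
      refine ⟨n, fun _ _ => ?_⟩
      filter_upwards [h2, eventually_ge_atTop 1] with X hX hX1
      refine lt_of_lt_of_le (lt_of_not_ge (fun hh => absurd hh (not_le.2 hX))) ?_
      apply Real.rpow_le_rpow_of_exponent_le hX1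
      have : 1 / ((n : ℝ) + 1) ≤ ε := by
        rw [div_le_iff₀ (by positivity)]
        rw [div_lt_iff₀ hε] at hn
        nlinarith
      linarith
    · exact ⟨0, fun h1 h2 => absurd ⟨h1, h2⟩ hm⟩
  choose n hn using hex
  set n₀ := (Icc 1 x).sup n with hn₀
  have hall : ∀ᶠ X : ℝ in atTop, ∀ m ∈ Icc 1 x, m ∉ H → f X m < X ^ (1 - 1 / ((n₀ : ℝ) + 1)) := by
    rw [eventually_all_finset]
    intro m hm
    by_cases hmH : m ∉ H
    · filter_upwards [hn m hm hmH, eventually_ge_atTop 1] with X hX hX1 _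
      refine hX.trans_le (Real.rpow_le_rpow_of_exponent_le hX1 ?_)
      have h1 : (n m : ℝ) ≤ n₀ := by exact_mod_cast le_sup hm
      have h2 : 1 / ((n₀ : ℝ) + 1) ≤ 1 / ((n m : ℝ) + 1) :=
        one_div_le_one_div_of_le (by positivity) (by linarith)
      linarith
    · filter_upwards with X hX
      exact absurd hX hmH
  obtain ⟨X, hX1, hX2⟩ := (hall.and (h (1 / ((n₀ : ℝ) + 1)) (by positivity))).exists
  have h3 : (Icc 1 x).filter (fun m => X ^ (1 - 1 / ((n₀ : ℝ) + 1)) ≤ f X m) ⊆ H := by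
    intro m hm
    obtain ⟨hm1, hm2⟩ := mem_filter.1 hm
    by_contra hmH
    have := hX1 m hm1 hmH
    linarith
  have h4 : (((Icc 1 x).filter (fun m => X ^ (1 - 1 / ((n₀ : ℝ) + 1)) ≤ f X m)).card : ℝ) ≤
      (H.card : ℝ) := by exact_mod_cast card_le_card h3
  linarith

end Pool.Agent.V8H9.GD
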