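import Pool.Agent.V8H9.GD.Cho

/-!
# A conflict-free choice of primes for all pairs of shifts: two pairs
-/

set_option autoImplicit false

namespace Pool.Agent.V8H9.GD

open Finset

variable {K y : ℕ} {h : ℕ → ℕ}

theorem bi_bad (H : Sh K y h) {e f : ℕ × ℕ} (he : e ∈ Pr K) (hf : f ∈ Pr K) (hne : e ≠ f)
    {q : ℕ} (hq : Cand y h f q) (hu : Un K h f q) (B : Finset ℕ)
    (hB : ∀ p ∈ B, Cand y h e p ∧ ¬ (Bi h e f p q ∧ Bi h f e q p)) :
    B.card ≤ 12 * (20 * 4 ^ K + 1) := by
  classical
  set L : List (ℕ → Prop) :=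
      [fun p : ℕ => (p : ℤ) ∣ sm h f - sm h e + ((q : ℤ) - 1),
       fun p : ℕ => (p : ℤ) ∣ sm h f - sm h e - ((q : ℤ) - 1),
       fun p : ℕ => Qe h e p ∣ sm h f - sm h e - ((p : ℤ) - 1) + ((q : ℤ) - 1),
       fun p : ℕ => Qe h e p ∣ sm h f - sm h e - ((p : ℤ) - 1) - ((q : ℤ) - 1),
       fun p : ℕ => p = q,
       fun p : ℕ => (p : ℤ) = Qe h f q,
       fun p : ℕ => Qe h e p = Qe h f q,
       fun p : ℕ => (q : ℤ) ∣ sm h e - sm h f + ((p : ℤ) - 1),
       fun p : ℕ => (q : ℤ) ∣ sm h e - sm h f - ((p : ℤ) - 1),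
       fun p : ℕ => Qe h f q ∣ sm h e - sm h f - ((q : ℤ) - 1) + ((p : ℤ) - 1),
       fun p : ℕ => Qe h f q ∣ sm h e - sm h f - ((q : ℤ) - 1) - ((p : ℤ) - 1),
       fun p : ℕ => (q : ℤ) = Qe h e p] with hL
  have hy := H.y0
  have he0 := bnds H he
  have hf0 := bnds H hf
  have hq0 := cand_bnds H hf hq
  have habs : |sm h f - sm h e| ≤ 4 * 4 ^ K * y := by
    rw [abs_le]; constructor <;> linarith
  have habs' := abs_le.1 habs
  have hpos : (0 : ℤ) ≤ 4 ^ K * y := by positivity
  have hy1 : (1 : ℤ) ≤ 4 ^ K * y := by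
    have h1 : (1 : ℤ) ≤ 4 ^ K := one_le_pow₀ (by norm_num)
    have h2 : (1 : ℤ) ≤ y := by exact_mod_cast hy
    nlinarith
  have hcov := cover L (20 * 4 ^ K + 1) B ?_ ?_
  · refine hcov.trans (le_of_eq ?_)
    rw [hL]; rfl
  · intro F hF C hCB hC
    have hCc : ∀ p ∈ C, (y : ℤ) ≤ p ∧ (y : ℤ) ≤ Qe h e p ∧ (p : ℤ) ≤ 4 ^ K * y ∧
        (2 : ℤ) ∣ (p : ℤ) - 1 ∧ (1 : ℤ) ≤ p ∧ 0 < Qe h e p :=
      fun p hp => cand_bnds H he (hB p (hCB hp)).1
    rw [hL] at hF
    simp only [List.mem_cons, List.not_mem_nil, or_false] at hF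
    rcases hF with rfl | rfl | rfl | rfl | rfl | rfl | rfl | rfl | rfl | rfl | rfl | rfl
    · refine few_div C 1 0 0 (sm h f - sm h e + ((q : ℤ) - 1)) (10 * 4 ^ K) y hy ?_ ?_ ?_ ?_
        |>.trans (by omega)
      · intro p hp
        have := hCc p hp
        linarith
      · intro p hp
        apply T_le
        rw [zero_mul, zero_add, abs_le]; constructor <;> linarith
      · intro t ht
        have : t = 0 := by linarith
        subst this
        have h3 := hu.u3 e he hne
        simpa using h3
      · intro p hp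
        have := hC p hp
        simpa using this
    · refine few_div C 1 0 0 (sm h f - sm h e - ((q : ℤ) - 1)) (10 * 4 ^ K) y hy ?_ ?_ ?_ ?_
        |>.trans (by omega)
      · intro p hp
        have := hCc p hp
        linarith
      · intro p hp
        apply T_le
        rw [zero_mul, zero_add, abs_le]; constructor <;> linarith
      · intro t ht
        have : t = 0 := by linarith
        subst this
        have h3 := hu.u4 e he hne
        simpa using h3
      · intro p hp
        have := hC p hp
        simpa using this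
    · refine few_div C (-1) (df h e + 2) (-1) (sm h f - sm h e + 1 + ((q : ℤ) - 1)) (10 * 4 ^ K)
        y hy ?_ ?_ ?_ ?_ |>.trans (by omega)
      · intro p hp
        have := hCc p hp
        unfold Qe at this
        linarith
      · intro p hp
        have := hCc p hp
        apply T_le
        rw [abs_le]; constructor <;> linarith
      · intro t ht
        have : t = 1 := by linarith
        subst this
        intro h1
        have h2 := he0.2.2.2.1
        have h3 := he0.2.2.2.2
        have h4 := hf0.2.2.2.1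
        have h5 := hq0.2.2.2.1
        omega
      · intro p hp
        have := hC p hp
        have e1 : Qe h e p = -1 * (p : ℤ) + (df h e + 2) := by unfold Qe; ring
        have e2 : sm h f - sm h e - ((p : ℤ) - 1) + ((q : ℤ) - 1) =
          -1 * (p : ℤ) + (sm h f - sm h e + 1 + ((q : ℤ) - 1)) := by ring
        rw [← e1, ← e2]
        exact this
    · refine few_div C (-1) (df h e + 2) (-1) (sm h f - sm h e + 1 - ((q : ℤ) - 1)) (10 * 4 ^ K)
        y hy ?_ ?_ ?_ ?_ |>.trans (by omega)
      · intro p hp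
        have := hCc p hp
        unfold Qe at this
        linarith
      · intro p hp
        have := hCc p hp
        apply T_le
        rw [abs_le]; constructor <;> linarith
      · intro t ht
        have : t = 1 := by linarith
        subst this
        intro h1
        have h2 := he0.2.2.2.1
        have h3 := he0.2.2.2.2
        have h4 := hf0.2.2.2.1
        have h5 := hq0.2.2.2.1
        omega
      · intro p hp
        have := hC p hp
        have e1 : Qe h e p = -1 * (p : ℤ) + (df h e + 2) := by unfold Qe; ring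
        have e2 : sm h f - sm h e - ((p : ℤ) - 1) - ((q : ℤ) - 1) =
          -1 * (p : ℤ) + (sm h f - sm h e + 1 - ((q : ℤ) - 1)) := by ring
        rw [← e1, ← e2]
        exact this
    · refine few_eq C 1 (-q) (by norm_num) (fun p hp => ?_) _ (by omega)
      have := hC p hp
      dsimp only at this
      rw [this]; ring
    · refine few_eq C 1 (-(Qe h f q)) (by norm_num) (fun p hp => ?_) _ (by omega)
      have := hC p hp
      dsimp only at this
      rw [this]; ring
    · refine few_eq C (-1) (df h e + 2 - Qe h f q) (by norm_num) (fun p hp => ?_) _ (by omega)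
      have := hC p hp
      dsimp only at this
      rw [← this]; unfold Qe; ring
    · refine few_div C 0 q 1 (sm h e - sm h f - 1) (10 * 4 ^ K) y hy ?_ ?_ ?_ ?_
        |>.trans (by omega)
      · intro p hp
        linarith
      · intro p hp
        have := hCc p hp
        apply T_le
        rw [abs_le]; constructor <;> linarith
      · intro t ht
        simp at ht
      · intro p hp
        have := hC p hp
        have e2 : sm h e - sm h f + ((p : ℤ) - 1) = 1 * (p : ℤ) + (sm h e - sm h f - 1) := by ring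
        have e1 : (q : ℤ) = 0 * (p : ℤ) + q := by ring
        rw [← e1, ← e2]
        exact this
    · refine few_div C 0 q (-1) (sm h e - sm h f + 1) (10 * 4 ^ K) y hy ?_ ?_ ?_ ?_
        |>.trans (by omega)
      · intro p hp
        linarith
      · intro p hp
        have := hCc p hp
        apply T_le
        rw [abs_le]; constructor <;> linarith
      · intro t ht
        simp at ht
      · intro p hp
        have := hC p hp
        have e2 : sm h e - sm h f - ((p : ℤ) - 1) = (-1) * (p : ℤ) + (sm h e - sm h f + 1) := by ring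
        have e1 : (q : ℤ) = 0 * (p : ℤ) + q := by ring
        rw [← e1, ← e2]
        exact this
    · refine few_div C 0 (Qe h f q) 1 (sm h e - sm h f - ((q : ℤ) - 1) - 1) (10 * 4 ^ K) y hy
        ?_ ?_ ?_ ?_ |>.trans (by omega)
      · intro p hp
        linarith
      · intro p hp
        have := hCc p hp
        apply T_le
        rw [abs_le]; constructor <;> linarith
      · intro t ht
        simp at ht
      · intro p hp
        have := hC p hp
        have e2 : sm h e - sm h f - ((q : ℤ) - 1) + ((p : ℤ) - 1) =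
          1 * (p : ℤ) + (sm h e - sm h f - ((q : ℤ) - 1) - 1) := by ring
        have e1 : Qe h f q = 0 * (p : ℤ) + Qe h f q := by ring
        rw [← e1, ← e2]
        exact this
    · refine few_div C 0 (Qe h f q) (-1) (sm h e - sm h f - ((q : ℤ) - 1) + 1) (10 * 4 ^ K) y hy
        ?_ ?_ ?_ ?_ |>.trans (by omega)
      · intro p hp
        linarith
      · intro p hp
        have := hCc p hp
        apply T_le
        rw [abs_le]; constructor <;> linarith
      · intro t ht
        simp at ht
      · intro p hp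
        have := hC p hp
        have e2 : sm h e - sm h f - ((q : ℤ) - 1) - ((p : ℤ) - 1) =
          (-1) * (p : ℤ) + (sm h e - sm h f - ((q : ℤ) - 1) + 1) := by ring
        have e1 : Qe h f q = 0 * (p : ℤ) + Qe h f q := by ring
        rw [← e1, ← e2]
        exact this
    · refine few_eq C (-1) (df h e + 2 - q) (by norm_num) (fun p hp => ?_) _ (by omega)
      have := hC p hp
      dsimp only at this
      rw [this]; unfold Qe; ring
  · intro p hp
    obtain ⟨_, hU⟩ := hB p hp
    by_contra hcon
    push Not at hcon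
    apply hU
    have k1 := hcon (fun p : ℕ => (p : ℤ) ∣ sm h f - sm h e + ((q : ℤ) - 1)) (by simp [hL])
    have k2 := hcon (fun p : ℕ => (p : ℤ) ∣ sm h f - sm h e - ((q : ℤ) - 1)) (by simp [hL])
    have k3 := hcon (fun p : ℕ => Qe h e p ∣ sm h f - sm h e - ((p : ℤ) - 1) + ((q : ℤ) - 1))
      (by simp [hL])
    have k4 := hcon (fun p : ℕ => Qe h e p ∣ sm h f - sm h e - ((p : ℤ) - 1) - ((q : ℤ) - 1))
      (by simp [hL])
    have k5 := hcon (fun p : ℕ => p = q) (by simp [hL])
    have k6 := hcon (fun p : ℕ => (p : ℤ) = Qe h f q) (by simp [hL])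
    have k7 := hcon (fun p : ℕ => Qe h e p = Qe h f q) (by simp [hL])
    have k8 := hcon (fun p : ℕ => (q : ℤ) ∣ sm h e - sm h f + ((p : ℤ) - 1)) (by simp [hL])
    have k9 := hcon (fun p : ℕ => (q : ℤ) ∣ sm h e - sm h f - ((p : ℤ) - 1)) (by simp [hL])
    have k10 := hcon (fun p : ℕ => Qe h f q ∣ sm h e - sm h f - ((q : ℤ) - 1) + ((p : ℤ) - 1))
      (by simp [hL])
    have k11 := hcon (fun p : ℕ => Qe h f q ∣ sm h e - sm h f - ((q : ℤ) - 1) - ((p : ℤ) - 1))
      (by simp [hL])
    have k12 := hcon (fun p : ℕ => (q : ℤ) = Qe h e p) (by simp [hL])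
    exact ⟨⟨k1, k2, k3, k4, k5, k6, k7⟩, ⟨k8, k9, k10, k11, fun h => k5 h.symm, k12,
      fun h => k7 h.symm⟩⟩

/-- all conditions at once -/
theorem choice (H : Sh K y h) (S : ℕ × ℕ → Finset ℕ)
    (hS : ∀ e ∈ Pr K, ∀ p ∈ S e, Cand y h e p)
    (hcard : ∀ e ∈ Pr K, (16 * (K * K) + 2 * K) * (20 * 4 ^ K + 1) < (S e).card) :
    ∃ u : ℕ × ℕ → ℕ, (∀ e ∈ Pr K, Cand y h e (u e) ∧ Un K h e (u e)) ∧
      ∀ e ∈ Pr K, ∀ f ∈ Pr K, e ≠ f → Bi h e f (u e) (u f) := by
  classical
  have hgr := greedy (fun e f p q => Bi h e f p q ∧ Bi h f e q p)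
    (fun e f p q hh => ⟨hh.2, hh.1⟩) (fun e => (S e).filter (fun p => Un K h e p))
    (12 * (20 * 4 ^ K + 1)) (Pr K) ?_ ?_
  · obtain ⟨u, hu1, hu2⟩ := hgr
    refine ⟨u, fun e he => ?_, fun e he f hf hne => (hu2 e he f hf hne).1⟩
    have := mem_filter.1 (hu1 e he)
    exact ⟨hS e he _ this.1, this.2⟩
  · intro e he f hf hne q hq B hBS hB
    have hq' := mem_filter.1 hq
    refine bi_bad H he hf hne (hS f hf _ hq'.1) hq'.2 B (fun p hp => ?_)
    exact ⟨hS e he p (mem_filter.1 (hBS hp)).1, hB p hp⟩
  · intro e he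
    have h1 := un_bad H he ((S e).filter (fun p => ¬ Un K h e p)) (fun p hp => by
      have := mem_filter.1 hp
      exact ⟨hS e he p this.1, this.2⟩)
    have h2 := card_filter_add_card_filter_not (s := S e) (fun p => Un K h e p)
    have h3 := hcard e he
    have h4 : (Pr K).card * (12 * (20 * 4 ^ K + 1)) ≤ K * K * (12 * (20 * 4 ^ K + 1)) :=
      Nat.mul_le_mul_right _ (Pr_card K)
    have h5 : (16 * (K * K) + 2 * K) * (20 * 4 ^ K + 1) = K * K * (12 * (20 * 4 ^ K + 1)) +
      (4 * (K * K) + 2 * K) * (20 * 4 ^ K + 1) := by ring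
    omega

end Pool.Agent.V8H9.GD
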