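import Pool.Agent.W93.PG6

/-!
# Almost every even number has many Goldbach representations with a small prime
-/

set_option autoImplicit false

namespace Pool.Agent.V8H9.GD

open Finset Filter Topology
open Pool.Agent.W93
open Pool.Agent.W93.PG
open Pool.Agent.W93.RD (Str pw)

theorem digits_sum (m k : ℕ) : ∑ j ∈ range k, (m / 2 ^ j % 2) * 2 ^ j = m % 2 ^ k := by
  induction k with
  | zero => simp [Nat.mod_one]
  | succ k ih =>
    rw [sum_range_succ, ih, Nat.mod_pow_succ]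
    ring

/-- the exceptional even numbers -/
def Exc (C m : ℕ) : Prop := 0 < m ∧ 2 ∣ m ∧ ¬ C ≤ cnt m (m / 8) ((m - 2) / 4)

theorem winP_imp (C : ℕ) : ∃ m₀ : ℕ, ∀ m : ℕ, m₀ ≤ m → 2 ∣ m → WinP (1 / 2) 1 m →
    C ≤ cnt m (m / 8) ((m - 2) / 4) := by
  have h1 : ∀ᶠ m : ℕ in atTop, (16 : ℝ) ≤ Real.log m :=
    (Real.tendsto_log_atTop.comp tendsto_natCast_atTop_atTop).eventually_ge_atTop 16
  have h2 : ∀ᶠ m : ℕ in atTop, Real.log (m : ℝ) ^ 2 * (32 * C) ≤ m := by
    have h3 : (fun x : ℝ => Real.log x ^ 2) =o[atTop] (fun x : ℝ => x) := by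
      have := isLittleO_log_rpow_rpow_atTop (s := 1) 2 one_pos
      simpa using this
    have h4 := (h3.comp_tendsto tendsto_natCast_atTop_atTop).def
      (show (0 : ℝ) < 1 / (32 * C + 1) by positivity)
    filter_upwards [h4, eventually_ge_atTop 1] with m hm hm1
    simp only [Function.comp] at hm
    rw [Real.norm_of_nonneg (by positivity), Real.norm_of_nonneg (by positivity)] at hm
    have hm0 : (0 : ℝ) ≤ m := by positivity
    have h5 : Real.log (m : ℝ) ^ 2 * (32 * C + 1) ≤ m := by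
      rw [div_mul_eq_mul_div, one_mul, le_div_iff₀ (by positivity)] at hm
      exact hm
    nlinarith [sq_nonneg (Real.log (m : ℝ))]
  obtain ⟨m₀, hm₀⟩ := eventually_atTop.1 (h1.and (h2.and (eventually_ge_atTop 100)))
  refine ⟨m₀, fun m hm _ hW => ?_⟩
  obtain ⟨hl, hC, hm100⟩ := hm₀ m hm
  have hmr : (100 : ℝ) ≤ m := by exact_mod_cast hm100
  have hy1 : ((m / 8 : ℕ) : ℝ) ≤ m / 8 := by
    have := Nat.cast_div_le (α := ℝ) (m := m) (n := 8)
    simpa using this
  have hy2 : (m : ℝ) / 4 - 5 / 4 ≤ (((m - 2) / 4 : ℕ) : ℝ) := by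
    have h5 : m ≤ 4 * ((m - 2) / 4) + 5 := by omega
    have h6 : (m : ℝ) ≤ 4 * (((m - 2) / 4 : ℕ) : ℝ) + 5 := by exact_mod_cast h5
    linarith
  have hdiff : (m : ℝ) / 16 ≤ (((m - 2) / 4 : ℕ) : ℝ) - ((m / 8 : ℕ) : ℝ) := by linarith
  have hlog0 : 0 < Real.log (m : ℝ) := by linarith
  have hw := hW (m / 8) ((m - 2) / 4) (by omega) (by omega) (by
    refine le_trans ?_ hdiff
    rw [pow_one]
    exact div_le_div_of_nonneg_left (by linarith) (by norm_num) hl)
  have h7 := (abs_le.1 hw).1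
  have hs := Pool.Agent.W93.GB.one_le_sing m
  set Z : ℝ := Pool.Agent.H560R3.GB.sing m *
    ((((m - 2) / 4 : ℕ) : ℝ) - ((m / 8 : ℕ) : ℝ)) / Real.log m ^ 2 with hZ
  have h8 : (m : ℝ) / 16 / Real.log m ^ 2 ≤ Z := by
    rw [hZ]
    apply div_le_div_of_nonneg_right _ (by positivity)
    nlinarith
  have h9 : 2 * (C : ℝ) ≤ (m : ℝ) / 16 / Real.log m ^ 2 := by
    rw [le_div_iff₀ (by positivity)]
    linarith
  have h10 : (C : ℝ) ≤ (cnt m (m / 8) ((m - 2) / 4) : ℝ) := by linarith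
  exact_mod_cast h10

open Classical in
/-- few exceptional even numbers -/
theorem few_exc (C : ℕ) : ∃ k₀ : ℕ, ∀ k : ℕ, k₀ ≤ k →
    (((range (2 ^ k)).filter (Exc C)).card : ℝ) ≤ 2 ^ k / k := by
  obtain ⟨m₀, hm₀⟩ := winP_imp C
  obtain ⟨k₀, hk₀⟩ := pg_windows 2 2 0 1 1 m₀ le_rfl (1 / 2) (1 / 2) (by norm_num) (by norm_num)
    (fun m => C ≤ cnt m (m / 8) ((m - 2) / 4)) hm₀
  refine ⟨k₀, fun k hk => ?_⟩
  have h1 := hk₀ k hk (fun _ _ => 1 / 2) (fun _ _ _ => by norm_num) (fun _ _ _ => by norm_num)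
    (fun _ _ => by simp) 0 (by simp) (fun d => Exc C (RD.val 2 d)) (Classical.decPred _) (by
      intro d _ hd
      obtain ⟨h1, h2, h3⟩ := hd
      refine ⟨by omega, by omega, ?_⟩
      rw [zero_add, Int.toNat_natCast]
      exact h3)
  have h2 : ((((range (2 ^ k)).filter (Exc C)).card : ℕ) : ℝ) ≤
      (((Str 2 k).filter (fun d => Exc C (RD.val 2 d))).card : ℝ) := by
    rw [Nat.cast_le]
    have hval : ∀ m : ℕ, m < 2 ^ k → RD.val 2 (fun j : Fin k => m / 2 ^ (j : ℕ) % 2) = m := by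
      intro m hm
      unfold RD.val
      rw [Fin.sum_univ_eq_sum_range (fun j => (m / 2 ^ j % 2) * 2 ^ j) k, digits_sum,
        Nat.mod_eq_of_lt hm]
    apply card_le_card_of_injOn (fun m => fun j : Fin k => m / 2 ^ (j : ℕ) % 2)
    · intro m hm
      have hm' := mem_filter.1 (mem_coe.1 hm)
      have hm'' := mem_range.1 hm'.1
      rw [mem_coe, mem_filter]
      refine ⟨?_, ?_⟩
      · unfold Str
        rw [Fintype.mem_piFinset]
        intro j
        rw [mem_range]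
        exact Nat.mod_lt _ (by norm_num)
      · rw [hval m hm'']
        exact hm'.2
    · intro m hm m' hm' heq
      have h3 := mem_range.1 (mem_filter.1 (mem_coe.1 hm)).1
      have h4 := mem_range.1 (mem_filter.1 (mem_coe.1 hm')).1
      have h5 := congrArg (RD.val 2) heq
      dsimp only at h5
      rw [hval m h3, hval m' h4] at h5
      exact h5
  refine h2.trans ?_
  have h3 : ∑ d ∈ Str 2 k, (if Exc C (RD.val 2 d) then pw (fun _ _ => (1 : ℝ) / 2) d else 0) =
      (((Str 2 k).filter (fun d => Exc C (RD.val 2 d))).card : ℝ) * (1 / 2) ^ k := by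
    rw [← sum_filter]
    have : ∀ d ∈ (Str 2 k).filter (fun d => Exc C (RD.val 2 d)),
        pw (fun _ _ => (1 : ℝ) / 2) d = (1 / 2) ^ k := by
      intro d _
      unfold pw
      rw [prod_const, card_univ, Fintype.card_fin]
    rw [sum_congr rfl this, sum_const, nsmul_eq_mul]
  have h4 : (((Str 2 k).filter (fun d => Exc C (RD.val 2 d))).card : ℝ) * (1 / 2) ^ k ≤ 1 / k := by
    rw [← h3]
    refine le_trans (le_of_eq ?_) (h1.trans (by rw [pow_one]))
    apply sum_congr rfl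
    intro d _
    congr
  have h5 : ((1 : ℝ) / 2) ^ k = 1 / 2 ^ k := by rw [div_pow, one_pow]
  rw [h5, mul_one_div, div_le_iff₀ (by positivity)] at h4
  calc (((Str 2 k).filter (fun d => Exc C (RD.val 2 d))).card : ℝ) ≤ 1 / k * 2 ^ k := h4
    _ = 2 ^ k / k := by ring

end Pool.Agent.V8H9.GD
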