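import Mathlib

/-!
# Selection of shifts whose differences avoid a sparse set
-/

set_option autoImplicit false

namespace Pool.Agent.V8H9.GD

open Finset

/-- For every finite set `A` of naturals and a sparse set `E` there is a multiple of `W` in `(z, z + y]`
which has no difference in `E` with an element of `A`. -/
theorem exists_next {W y z : ℕ} (hW : 0 < W) (E : Finset ℕ) (A : Finset ℕ)
    (hcard : A.card * E.card < y / W) :
    ∃ h : ℕ, W ∣ h ∧ z < h ∧ h ≤ z + y ∧ ∀ a ∈ A, h - a ∉ E ∨ h ≤ a := by
  classical
  -- the multiples of `W` in the interval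
  set M : Finset ℕ := (Icc (z / W + 1) (z / W + y / W)).image (fun t => W * t) with hM
  have hMc : M.card = y / W := by
    rw [hM, card_image_of_injective, Nat.card_Icc]
    · omega
    · intro a b hab
      exact Nat.eq_of_mul_eq_mul_left hW hab
  have hMi : ∀ h ∈ M, W ∣ h ∧ z < h ∧ h ≤ z + y := by
    intro h hh
    rw [hM, mem_image] at hh
    obtain ⟨t, ht, rfl⟩ := hh
    rw [mem_Icc] at ht
    refine ⟨Dvd.intro t rfl, ?_, ?_⟩
    · have h1 : z < W * (z / W + 1) := by
        have := Nat.lt_mul_div_succ z hW
        simpa using this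
      exact h1.trans_le (Nat.mul_le_mul_left W ht.1)
    · calc W * t ≤ W * (z / W + y / W) := Nat.mul_le_mul_left W ht.2
        _ = W * (z / W) + W * (y / W) := by ring
        _ ≤ z + y := Nat.add_le_add (Nat.mul_div_le z W) (Nat.mul_div_le y W)
  -- the forbidden elements
  set F : Finset ℕ := A.biUnion (fun a => E.image (fun e => a + e)) with hF
  have hFc : F.card ≤ A.card * E.card := by
    rw [hF]
    refine card_biUnion_le.trans ?_
    rw [← smul_eq_mul, ← sum_const]
    exact sum_le_sum fun a _ => card_image_le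
  obtain ⟨h, hhM, hhF⟩ : ∃ h ∈ M, h ∉ F := by
    by_contra hcon
    push Not at hcon
    have := card_le_card (show M ⊆ F from hcon)
    omega
  obtain ⟨h1, h2, h3⟩ := hMi h hhM
  refine ⟨h, h1, h2, h3, fun a ha => ?_⟩
  rcases Nat.lt_or_ge a h with h4 | h4
  · left
    intro hE
    apply hhF
    rw [hF, mem_biUnion]
    exact ⟨a, ha, mem_image.2 ⟨h - a, hE, by omega⟩⟩
  · exact Or.inr h4

/-- Well separated shifts, multiples of `W`, without a difference in `E`. -/
theorem exists_shifts {W y : ℕ} (hW : 0 < W) (E : Finset ℕ) (K : ℕ)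
    (hcard : K * E.card < y / W) :
    ∀ k, k ≤ K → ∃ h : ℕ → ℕ, (∀ i, i < k → W ∣ h i ∧ 4 ^ (i + 1) * y < h i ∧
      h i ≤ 4 ^ (i + 1) * y + y) ∧ ∀ i j, i < j → j < k → h j - h i ∉ E := by
  classical
  have hy : 0 < y := by
    rcases Nat.eq_zero_or_pos y with h | h
    · rw [h] at hcard; simp at hcard
    · exact h
  intro k
  induction k with
  | zero => intro _; exact ⟨fun _ => 0, by simp, by simp⟩
  | succ k ih =>
    intro hk
    obtain ⟨h, h1, h2⟩ := ih (by omega)
    obtain ⟨g, hg1, hg2, hg3, hg4⟩ := exists_next (z := 4 ^ (k + 1) * y) hW E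
      ((range k).image h) (lt_of_le_of_lt (Nat.mul_le_mul_right _
        (card_image_le.trans (by rw [card_range]; omega))) hcard)
    refine ⟨fun i => if i = k then g else h i, ?_, ?_⟩
    · intro i hi
      dsimp only
      split_ifs with h3
      · subst h3; exact ⟨hg1, hg2, hg3⟩
      · exact h1 i (by omega)
    · intro i j hij hj
      dsimp only
      rw [if_neg (show ¬ i = k by omega)]
      split_ifs with h3
      · subst h3
        rcases hg4 (h i) (mem_image_of_mem _ (mem_range.2 hij)) with h5 | h5
        · exact h5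
        · exfalso
          have h6 := (h1 i hij).2.2
          have h7 : 4 ^ (i + 1) * y + y ≤ 4 ^ (j + 1) * y := by
            have : 4 ^ (i + 1) + 1 ≤ 4 ^ (j + 1) := by
              have h8 : 4 ^ (i + 1 + 1) ≤ 4 ^ (j + 1) := Nat.pow_le_pow_right (by norm_num) (by omega)
              have h9 : 4 ^ (i + 1 + 1) = 4 * 4 ^ (i + 1) := by ring
              have h10 : 1 ≤ 4 ^ (i + 1) := Nat.one_le_pow _ _ (by norm_num)
              omega
            calc 4 ^ (i + 1) * y + y = (4 ^ (i + 1) + 1) * y := by ring
              _ ≤ _ := Nat.mul_le_mul_right y this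
          omega
      · exact h2 i j hij (by omega)

end Pool.Agent.V8H9.GD
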