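import Pool.Agent.V8H9.GD.Fml
import Pool.Agent.V8H9.GD.Sel
import Pool.Agent.V8H9.GD.Gld

/-!
# The configuration of shifts, primes and a base, whose differences avoid a given set
-/

set_option autoImplicit false

namespace Pool.Agent.V8H9.GD

open Finset Filter Topology
open Pool.Agent.W93.PG

/-- the configuration -/
structure Cfg (K y : ℕ) (h : ℕ → ℕ) (u : ℕ × ℕ → ℕ) (N0 : ℕ) : Prop where
  sh : Sh K y h
  cand : ∀ e ∈ Pr K, Cand y h e (u e)
  res : ∀ r : ℕ, r.Prime → r ≤ 2 * 4 ^ K * y + 2 → Rs K h u r N0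
  big : K < 2 * 4 ^ K * y + 2

theorem exists_cfg {K w y : ℕ} (hwK : 3 * (K * K) + K + 2 ≤ w) (hwy : w < y) (E : Finset ℕ)
    (hE : K * E.card < y / w.factorial)
    (hG : ∀ m : ℕ, 2 ∣ m → m ≤ 2 * 4 ^ K * y + 2 → 2 ≤ m → m - 2 ∉ E →
      ¬ Exc ((16 * (K * K) + 2 * K) * (20 * 4 ^ K + 1) + 1) m) :
    ∃ (h : ℕ → ℕ) (u : ℕ × ℕ → ℕ) (N0 : ℕ), Cfg K y h u N0 ∧ ∀ e ∈ Pr K, df h e ∉ E := by
  classical
  obtain ⟨h, h1, h2⟩ := exists_shifts (Nat.factorial_pos w) E K hE K le_rfl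
  have h2W : 2 ∣ w.factorial := Nat.dvd_factorial (by norm_num) (by omega)
  have H : Sh K y h := ⟨by omega, fun i hi => h2W.trans (h1 i hi).1, fun i hi => (h1 i hi).2.1,
    fun i hi => (h1 i hi).2.2⟩
  have hdfE : ∀ e ∈ Pr K, df h e ∉ E := fun e he => h2 e.1 e.2 (mem_Pr.1 he).1 (mem_Pr.1 he).2
  set S : ℕ × ℕ → Finset ℕ := fun e =>
    (Ioc ((df h e + 2) / 8) ((df h e + 2 - 2) / 4)).filter
      (fun p => p.Prime ∧ (df h e + 2 - p).Prime) with hS
  have hSc : ∀ e ∈ Pr K, ∀ p ∈ S e, Cand y h e p := by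
    intro e he p hp
    have hp' := mem_filter.1 hp
    have hp'' := mem_Ioc.1 hp'.1
    have hst := H.step (mem_Pr.1 he).1 (mem_Pr.1 he).2
    have hdf : df h e = h e.2 - h e.1 := rfl
    exact ⟨hp'.2.1, by omega, by omega, by omega, hp'.2.2⟩
  have hcard : ∀ e ∈ Pr K, (16 * (K * K) + 2 * K) * (20 * 4 ^ K + 1) < (S e).card := by
    intro e he
    have hb := bnds H he
    have hm2 : 2 ∣ df h e + 2 := by
      have := hb.2.2.2.2
      have h3 : 2 ∣ df h e := by exact_mod_cast this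
      omega
    have hle : df h e + 2 ≤ 2 * 4 ^ K * y + 2 := by
      have h3 : df h e ≤ 2 * 4 ^ K * y := by exact_mod_cast hb.2.2.1
      omega
    have h4 := hG (df h e + 2) hm2 hle (by omega) (by
      rw [Nat.add_sub_cancel]; exact hdfE e he)
    unfold Exc at h4
    push Not at h4
    have h5 := h4 (by omega) hm2
    unfold cnt at h5
    exact h5
  obtain ⟨u, hu, hbi⟩ := choice H S hSc hcard
  obtain ⟨N0, hN0⟩ := exists_base (w := w) H (fun i hi => (h1 i hi).1) (by omega) hwy hu hbi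
    (2 * 4 ^ K * y + 2)
  have hbig : K < 2 * 4 ^ K * y + 2 := by
    have h3 : K < 4 ^ K := Nat.lt_pow_self (by norm_num)
    have h4 : 4 ^ K ≤ 2 * 4 ^ K * y := by
      calc 4 ^ K = 4 ^ K * 1 := (mul_one _).symm
        _ ≤ 4 ^ K * (2 * y) := Nat.mul_le_mul_left _ (by omega)
        _ = _ := by ring
    omega
  exact ⟨h, u, N0, ⟨H, fun e he => (hu e he).1, hN0, hbig⟩, hdfE⟩

/-- `N` is a parameter with defect `m` whose nontrivial gcds are exactly two primes -/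
def Gd (m N : ℕ) : Prop := ∃ p q n : ℕ, Two p q n ∧ p + q = m + 1 ∧ N = n + (p + q - 2)

theorem Cfg.prime_pair {K y : ℕ} {h : ℕ → ℕ} {u : ℕ × ℕ → ℕ} {N0 : ℕ} (c : Cfg K y h u N0)
    (ν : ℕ) {e : ℕ × ℕ} (he : e ∈ Pr K)
    (h1 : ((2 * 4 ^ K * y + 2).factorial * ν + (N0 + (2 * 4 ^ K * y + 2).factorial) +
      2 * h e.1).Prime)
    (h2 : ((2 * 4 ^ K * y + 2).factorial * ν + (N0 + (2 * 4 ^ K * y + 2).factorial) +
      2 * h e.2).Prime) (hν : 1 ≤ ν) :
    Gd (df h e + 1) ((2 * 4 ^ K * y + 2).factorial * ν + (N0 + (2 * 4 ^ K * y + 2).factorial) +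
      h e.1 + h e.2) := by
  set R := 2 * 4 ^ K * y + 2 with hR
  set n := R.factorial * ν + (N0 + R.factorial) with hn
  have hb := bnds c.sh he
  have hdf : df h e + 2 ≤ R := by
    have h3 : df h e ≤ 2 * 4 ^ K * y := by exact_mod_cast hb.2.2.1
    omega
  have hca := c.cand e he
  have hQ : Qe h e (u e) ≤ R := by
    unfold Qe
    have : (df h e : ℤ) + 2 ≤ R := by exact_mod_cast hdf
    have h4 : (0 : ℤ) ≤ u e := by positivity
    linarith
  obtain ⟨h3, h4⟩ := two_of c.sh he hca (n := n) (fun r hr hrQ =>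
    base_congr c.res ν r hr (by exact_mod_cast hrQ.trans hQ)) h1 h2 (by
      have h5 := Nat.self_le_factorial R
      have h6 : 1 ≤ R.factorial * ν := Nat.one_le_iff_ne_zero.2
        (Nat.mul_ne_zero (Nat.factorial_ne_zero _) (by omega))
      omega)
  have h5 := hca.2.2.2.1
  exact ⟨u e, df h e + 2 - u e, n + 2 * h e.1, h3, by omega, h4.symm⟩

end Pool.Agent.V8H9.GD
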