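import Pool.Agent.V8H9.GD.Prm

/-!
# A conflict-free choice of primes for all pairs of shifts: the choice
-/

set_option autoImplicit false

namespace Pool.Agent.V8H9.GD

open Finset

theorem few_eq (B : Finset ℕ) (c d : ℤ) (hc : c ≠ 0) (h : ∀ p ∈ B, c * p + d = 0) (m : ℕ)
    (hm : 1 ≤ m) : B.card ≤ m := by
  refine le_trans (card_le_one.2 fun p hp q hq => ?_) hm
  have h1 := h p hp
  have h2 := h q hq
  have h3 : c * (p : ℤ) = c * q := by linarith
  exact_mod_cast mul_left_cancel₀ hc h3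

theorem cover (L : List (ℕ → Prop)) (m : ℕ) : ∀ B : Finset ℕ,
    (∀ F ∈ L, ∀ C : Finset ℕ, C ⊆ B → (∀ p ∈ C, F p) → C.card ≤ m) →
    (∀ p ∈ B, ∃ F ∈ L, F p) → B.card ≤ L.length * m := by
  classical
  induction L with
  | nil =>
    intro B _ h2
    have : B = ∅ := by
      rw [eq_empty_iff_forall_notMem]
      intro p hp
      obtain ⟨F, hF, _⟩ := h2 p hp
      simp at hF
    simp [this]
  | cons F L ih =>
    intro B h1 h2
    have h3 : (B.filter F).card ≤ m :=
      h1 F (by simp) _ (filter_subset _ _) (fun p hp => (mem_filter.1 hp).2)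
    have h4 : (B.filter (fun p => ¬ F p)).card ≤ L.length * m := by
      apply ih
      · intro G hG C hC hp
        exact h1 G (List.mem_cons_of_mem _ hG) C (hC.trans (filter_subset _ _)) hp
      · intro p hp
        rw [mem_filter] at hp
        obtain ⟨G, hG, hGp⟩ := h2 p hp.1
        rcases List.mem_cons.1 hG with h5 | h5
        · subst h5; exact absurd hGp hp.2
        · exact ⟨G, h5, hGp⟩
    have h5 := card_filter_add_card_filter_not (s := B) F
    rw [List.length_cons, add_mul, one_mul]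
    omega

/-- the pairs `i < j < K` -/
def Pr (K : ℕ) : Finset (ℕ × ℕ) := (range K ×ˢ range K).filter (fun e => e.1 < e.2)

theorem mem_Pr {K : ℕ} {e : ℕ × ℕ} : e ∈ Pr K ↔ e.1 < e.2 ∧ e.2 < K := by
  unfold Pr
  rw [mem_filter, mem_product, mem_range, mem_range]
  constructor
  · rintro ⟨⟨h1, h2⟩, h3⟩; exact ⟨h3, h2⟩
  · rintro ⟨h1, h2⟩; exact ⟨⟨by omega, h2⟩, h1⟩

theorem Pr_card (K : ℕ) : (Pr K).card ≤ K * K := by
  unfold Pr
  refine (card_filter_le _ _).trans ?_
  rw [card_product, card_range]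

/-- well separated even shifts -/
structure Sh (K y : ℕ) (h : ℕ → ℕ) : Prop where
  y0 : 0 < y
  even : ∀ i, i < K → 2 ∣ h i
  lo : ∀ i, i < K → 4 ^ (i + 1) * y < h i
  hi : ∀ i, i < K → h i ≤ 4 ^ (i + 1) * y + y

namespace Sh

variable {K y : ℕ} {h : ℕ → ℕ}

theorem step (H : Sh K y h) {i j : ℕ} (hij : i < j) (hj : j < K) :
    h i + 11 * y ≤ h j ∧ 2 * h i < h j := by
  have h1 := H.hi i (by omega)
  have h2 := H.lo j hj
  have h3 : 4 ^ (i + 1) * y + 11 * y + y ≤ 4 ^ (j + 1) * y ∧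
      2 * (4 ^ (i + 1) * y + y) ≤ 4 ^ (j + 1) * y := by
    have h8 : 4 ^ (i + 1 + 1) ≤ 4 ^ (j + 1) := Nat.pow_le_pow_right (by norm_num) (by omega)
    have h9 : 4 ^ (i + 1 + 1) = 4 * 4 ^ (i + 1) := by ring
    have h10 : 4 ≤ 4 ^ (i + 1) := by
      calc 4 = 4 ^ 1 := by norm_num
        _ ≤ _ := Nat.pow_le_pow_right (by norm_num) (by omega)
    constructor
    · calc 4 ^ (i + 1) * y + 11 * y + y = (4 ^ (i + 1) + 12) * y := by ring
        _ ≤ _ := Nat.mul_le_mul_right y (by omega)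
    · calc 2 * (4 ^ (i + 1) * y + y) = (2 * 4 ^ (i + 1) + 2) * y := by ring
        _ ≤ _ := Nat.mul_le_mul_right y (by omega)
  omega

theorem le (H : Sh K y h) {i : ℕ} (hi : i < K) : h i ≤ 2 * 4 ^ K * y := by
  have h1 := H.hi i hi
  have h2 : 4 ^ (i + 1) ≤ 4 ^ K := Nat.pow_le_pow_right (by norm_num) (by omega)
  have h3 : 1 ≤ 4 ^ K := Nat.one_le_pow _ _ (by norm_num)
  calc h i ≤ (4 ^ (i + 1) + 1) * y := by rw [add_mul, one_mul]; exact h1
    _ ≤ 2 * 4 ^ K * y := Nat.mul_le_mul_right y (by omega)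

theorem sum_ne (H : Sh K y h) {e f : ℕ × ℕ} (he : e ∈ Pr K) (hf : f ∈ Pr K) (hne : e ≠ f) :
    h e.1 + h e.2 ≠ h f.1 + h f.2 := by
  rw [mem_Pr] at he hf
  obtain ⟨i, j⟩ := e
  obtain ⟨k, l⟩ := f
  dsimp only at he hf ⊢
  rcases lt_trichotomy j l with h1 | h1 | h1
  · have := H.step h1 hf.2
    have := H.step he.1 he.2
    omega
  · subst h1
    rcases lt_trichotomy i k with h2 | h2 | h2
    · have := H.step h2 (by omega); have := H.y0; omega
    · exact absurd (by rw [h2]) hne
    · have := H.step h2 (by omega); have := H.y0; omega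
  · have := H.step h1 he.2
    have := H.step hf.1 hf.2
    omega

theorem two_ne (H : Sh K y h) {e : ℕ × ℕ} (he : e ∈ Pr K) {l : ℕ} (hl : l < K) :
    2 * h l ≠ h e.1 + h e.2 := by
  rw [mem_Pr] at he
  have hy := H.y0
  rcases lt_trichotomy l e.2 with h1 | h1 | h1
  · have h2 := H.step h1 he.2
    have h3 := H.step he.1 he.2
    intro h4
    omega
  · subst h1
    have := H.step he.1 he.2
    omega
  · have := H.step he.1 he.2
    have := H.step h1 hl
    omega

end Sh

/-- the sum, the difference and the second prime -/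
def sm (h : ℕ → ℕ) (e : ℕ × ℕ) : ℤ := (h e.1 : ℤ) + h e.2
def df (h : ℕ → ℕ) (e : ℕ × ℕ) : ℕ := h e.2 - h e.1
def Qe (h : ℕ → ℕ) (e : ℕ × ℕ) (p : ℕ) : ℤ := (df h e : ℤ) + 2 - p

/-- the candidates -/
def Cand (y : ℕ) (h : ℕ → ℕ) (e : ℕ × ℕ) (p : ℕ) : Prop :=
  p.Prime ∧ 2 < p ∧ y ≤ p ∧ 4 * p ≤ df h e ∧ (df h e + 2 - p).Prime

/-- the conditions on one prime -/
structure Un (K : ℕ) (h : ℕ → ℕ) (e : ℕ × ℕ) (p : ℕ) : Prop where
  u1 : ∀ f ∈ Pr K, f ≠ e → ¬ (p : ℤ) ∣ sm h f - sm h e
  u2 : ∀ f ∈ Pr K, f ≠ e → ¬ Qe h e p ∣ sm h f - sm h e - ((p : ℤ) - 1)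
  u3 : ∀ f ∈ Pr K, f ≠ e → sm h e - sm h f + ((p : ℤ) - 1) ≠ 0
  u4 : ∀ f ∈ Pr K, f ≠ e → sm h e - sm h f - ((p : ℤ) - 1) ≠ 0
  u5 : ∀ l, l < K → ¬ (p : ℤ) ∣ 2 * (h l : ℤ) - sm h e
  u6 : ∀ l, l < K → ¬ Qe h e p ∣ 2 * (h l : ℤ) - sm h e - ((p : ℤ) - 1)

/-- the conditions on two primes -/
structure Bi (h : ℕ → ℕ) (e f : ℕ × ℕ) (p q : ℕ) : Prop where
  b1 : ¬ (p : ℤ) ∣ sm h f - sm h e + ((q : ℤ) - 1)
  b2 : ¬ (p : ℤ) ∣ sm h f - sm h e - ((q : ℤ) - 1)
  b3 : ¬ Qe h e p ∣ sm h f - sm h e - ((p : ℤ) - 1) + ((q : ℤ) - 1)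
  b4 : ¬ Qe h e p ∣ sm h f - sm h e - ((p : ℤ) - 1) - ((q : ℤ) - 1)
  b5 : p ≠ q
  b6 : (p : ℤ) ≠ Qe h f q
  b7 : Qe h e p ≠ Qe h f q

section

variable {K y : ℕ} {h : ℕ → ℕ}

theorem df_eq (H : Sh K y h) {e : ℕ × ℕ} (he : e ∈ Pr K) :
    (df h e : ℤ) = (h e.2 : ℤ) - h e.1 := by
  have := H.step (mem_Pr.1 he).1 (mem_Pr.1 he).2
  unfold df
  rw [Nat.cast_sub (by omega)]

theorem bnds (H : Sh K y h) {e : ℕ × ℕ} (he : e ∈ Pr K) :
    0 ≤ sm h e ∧ sm h e ≤ 4 * 4 ^ K * y ∧ (df h e : ℤ) ≤ 2 * 4 ^ K * y ∧ (2 : ℤ) ∣ sm h e ∧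
      (2 : ℤ) ∣ df h e := by
  have h1 := H.le (show e.1 < K from (mem_Pr.1 he).1.trans (mem_Pr.1 he).2)
  have h2 := H.le (mem_Pr.1 he).2
  have h3 := H.even e.1 ((mem_Pr.1 he).1.trans (mem_Pr.1 he).2)
  have h4 := H.even e.2 (mem_Pr.1 he).2
  have h5 := df_eq H he
  have h1' : (h e.1 : ℤ) ≤ 2 * 4 ^ K * y := by exact_mod_cast h1
  have h2' : (h e.2 : ℤ) ≤ 2 * 4 ^ K * y := by exact_mod_cast h2
  have h3' : (2 : ℤ) ∣ h e.1 := by exact_mod_cast h3
  have h4' : (2 : ℤ) ∣ h e.2 := by exact_mod_cast h4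
  have h6 : (0 : ℤ) ≤ h e.1 := by positivity
  have h7 : (0 : ℤ) ≤ h e.2 := by positivity
  refine ⟨by unfold sm; positivity, ?_, ?_, ?_, ?_⟩
  · unfold sm; linarith
  · rw [h5]; linarith
  · unfold sm; exact dvd_add h3' h4'
  · rw [h5]; exact dvd_sub h4' h3'

theorem cand_bnds (H : Sh K y h) {e : ℕ × ℕ} (he : e ∈ Pr K) {p : ℕ} (hp : Cand y h e p) :
    (y : ℤ) ≤ p ∧ (y : ℤ) ≤ Qe h e p ∧ (p : ℤ) ≤ 4 ^ K * y ∧ (2 : ℤ) ∣ (p : ℤ) - 1 ∧ (1 : ℤ) ≤ p ∧
      0 < Qe h e p := by
  obtain ⟨h1, h2, h3, h4, h5⟩ := hp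
  have hb := (bnds H he).2.2.1
  have h4' : 4 * (p : ℤ) ≤ df h e := by exact_mod_cast h4
  have h3' : (y : ℤ) ≤ p := by exact_mod_cast h3
  have h2' : (2 : ℤ) < p := by exact_mod_cast h2
  have hy : (0 : ℤ) ≤ 4 ^ K * y := by positivity
  refine ⟨h3', ?_, ?_, ?_, by linarith, ?_⟩
  · unfold Qe; linarith
  · linarith
  · have : p % 2 = 1 := by
      rcases h1.eq_two_or_odd with h | h <;> omega
    omega
  · unfold Qe; linarith

theorem T_le (K y : ℕ) {z : ℤ} (h : |z| ≤ 10 * 4 ^ K * y) : |z| ≤ ((10 * 4 ^ K : ℕ) : ℤ) * y := by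
  push_cast; exact h

theorem un_bad (H : Sh K y h) {e : ℕ × ℕ} (he : e ∈ Pr K) (B : Finset ℕ)
    (hB : ∀ p ∈ B, Cand y h e p ∧ ¬ Un K h e p) :
    B.card ≤ (4 * (K * K) + 2 * K) * (20 * 4 ^ K + 1) := by
  classical
  set L : List (ℕ → Prop) :=
    ((Pr K).erase e).toList.flatMap (fun f =>
      [fun p : ℕ => (p : ℤ) ∣ sm h f - sm h e,
       fun p : ℕ => Qe h e p ∣ sm h f - sm h e - ((p : ℤ) - 1),
       fun p : ℕ => sm h e - sm h f + ((p : ℤ) - 1) = 0,
       fun p : ℕ => sm h e - sm h f - ((p : ℤ) - 1) = 0]) ++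
    (List.range K).flatMap (fun l =>
      [fun p : ℕ => (p : ℤ) ∣ 2 * (h l : ℤ) - sm h e,
       fun p : ℕ => Qe h e p ∣ 2 * (h l : ℤ) - sm h e - ((p : ℤ) - 1)]) with hL
  have hlen : L.length ≤ 4 * (K * K) + 2 * K := by
    rw [hL, List.length_append, List.length_flatMap, List.length_flatMap]
    simp only [List.length_cons, List.length_nil, List.map_const', List.sum_replicate,
      Finset.length_toList, List.length_range, smul_eq_mul]
    have h1 : ((Pr K).erase e).card ≤ K * K := (card_erase_le).trans (Pr_card K)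
    omega
  have hy := H.y0
  have he0 := bnds H he
  have hcov := cover L (20 * 4 ^ K + 1) B ?_ ?_
  · exact hcov.trans (Nat.mul_le_mul_right _ hlen)
  · intro F hF C hCB hC
    rw [hL, List.mem_append, List.mem_flatMap, List.mem_flatMap] at hF
    rcases hF with ⟨f, hf, hF⟩ | ⟨l, hl, hF⟩
    · rw [Finset.mem_toList, mem_erase] at hf
      have hf0 := bnds H hf.2
      have hne := H.sum_ne hf.2 he hf.1
      have hne' : sm h f - sm h e ≠ 0 := by
        intro h1
        apply hne
        unfold sm at h1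
        have : ((h f.1 : ℤ) + h f.2) = h e.1 + h e.2 := by linarith
        exact_mod_cast this
      have habs : |sm h f - sm h e| ≤ 4 * 4 ^ K * y := by
        rw [abs_le]; constructor <;> linarith
      rw [List.mem_cons, List.mem_cons, List.mem_cons, List.mem_cons] at hF
      rcases hF with rfl | rfl | rfl | rfl | hF
      · refine few_div C 1 0 0 (sm h f - sm h e) (10 * 4 ^ K) y hy ?_ ?_ ?_ ?_ |>.trans (by omega)
        · intro p hp
          have := cand_bnds H he (hB p (hCB hp)).1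
          linarith
        · intro p hp
          apply T_le
          have : (0 : ℤ) ≤ 4 ^ K * y := by positivity
          rw [zero_mul, zero_add]; linarith
        · intro t ht
          have : t = 0 := by linarith
          subst this
          simpa using hne'
        · intro p hp
          have := hC p hp
          simpa using this
      · refine few_div C (-1) (df h e + 2) (-1) (sm h f - sm h e + 1) (10 * 4 ^ K) y hy ?_ ?_ ?_ ?_
          |>.trans (by omega)
        · intro p hp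
          have := cand_bnds H he (hB p (hCB hp)).1
          unfold Qe at this
          linarith
        · intro p hp
          have := cand_bnds H he (hB p (hCB hp)).1
          apply T_le
          have h0 : (0 : ℤ) ≤ 4 ^ K * y := by positivity
          have h1 := abs_le.1 habs
          rw [abs_le]; constructor <;> linarith
        · intro t ht
          have : t = 1 := by linarith
          subst this
          intro h1
          have h2 := he0.2.2.2.1
          have h3 := he0.2.2.2.2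
          have h4 := hf0.2.2.2.1
          omega
        · intro p hp
          have := hC p hp
          have e1 : Qe h e p = -1 * (p : ℤ) + (df h e + 2) := by unfold Qe; ring
          have e2 : sm h f - sm h e - ((p : ℤ) - 1) = -1 * (p : ℤ) + (sm h f - sm h e + 1) := by ring
          rw [← e1, ← e2]
          exact this
      · refine few_eq C 1 (sm h e - sm h f - 1) (by norm_num) (fun p hp => ?_) _ (by omega)
        have := hC p hp
        linarith
      · refine few_eq C (-1) (sm h e - sm h f + 1) (by norm_num) (fun p hp => ?_) _ (by omega)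
        have := hC p hp
        linarith
      · simp at hF
    · rw [List.mem_range] at hl
      have hhl : (h l : ℤ) ≤ 2 * 4 ^ K * y := by exact_mod_cast H.le hl
      have hhl0 : (0 : ℤ) ≤ h l := by positivity
      have hev : (2 : ℤ) ∣ h l := by exact_mod_cast H.even l hl
      have hne' : 2 * (h l : ℤ) - sm h e ≠ 0 := by
        intro h1
        apply H.two_ne he hl
        unfold sm at h1
        have : 2 * (h l : ℤ) = h e.1 + h e.2 := by linarith
        exact_mod_cast this
      have habs : |2 * (h l : ℤ) - sm h e| ≤ 4 * 4 ^ K * y := by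
        rw [abs_le]; constructor <;> linarith
      rw [List.mem_cons, List.mem_cons] at hF
      rcases hF with rfl | rfl | hF
      · refine few_div C 1 0 0 (2 * (h l : ℤ) - sm h e) (10 * 4 ^ K) y hy ?_ ?_ ?_ ?_
          |>.trans (by omega)
        · intro p hp
          have := cand_bnds H he (hB p (hCB hp)).1
          linarith
        · intro p hp
          apply T_le
          have : (0 : ℤ) ≤ 4 ^ K * y := by positivity
          rw [zero_mul, zero_add]; linarith
        · intro t ht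
          have : t = 0 := by linarith
          subst this
          simpa using hne'
        · intro p hp
          have := hC p hp
          simpa using this
      · refine few_div C (-1) (df h e + 2) (-1) (2 * (h l : ℤ) - sm h e + 1) (10 * 4 ^ K) y hy
          ?_ ?_ ?_ ?_ |>.trans (by omega)
        · intro p hp
          have := cand_bnds H he (hB p (hCB hp)).1
          unfold Qe at this
          linarith
        · intro p hp
          have := cand_bnds H he (hB p (hCB hp)).1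
          apply T_le
          have h0 : (0 : ℤ) ≤ 4 ^ K * y := by positivity
          have h1 := abs_le.1 habs
          rw [abs_le]; constructor <;> linarith
        · intro t ht
          have : t = 1 := by linarith
          subst this
          intro h1
          have h2 := he0.2.2.2.1
          have h3 := he0.2.2.2.2
          omega
        · intro p hp
          have := hC p hp
          have e1 : Qe h e p = -1 * (p : ℤ) + (df h e + 2) := by unfold Qe; ring
          have e2 : 2 * (h l : ℤ) - sm h e - ((p : ℤ) - 1) =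
            -1 * (p : ℤ) + (2 * (h l : ℤ) - sm h e + 1) := by ring
          rw [← e1, ← e2]
          exact this
      · simp at hF
  · intro p hp
    obtain ⟨_, hU⟩ := hB p hp
    by_contra hcon
    push Not at hcon
    apply hU
    have key1 : ∀ f ∈ Pr K, f ≠ e → ∀ F ∈ [fun p : ℕ => (p : ℤ) ∣ sm h f - sm h e,
       fun p : ℕ => Qe h e p ∣ sm h f - sm h e - ((p : ℤ) - 1),
       fun p : ℕ => sm h e - sm h f + ((p : ℤ) - 1) = 0,
       fun p : ℕ => sm h e - sm h f - ((p : ℤ) - 1) = 0], ¬ F p := by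
      intro f hf hfe F hF
      apply hcon
      rw [hL, List.mem_append, List.mem_flatMap]
      left
      exact ⟨f, by rw [Finset.mem_toList, mem_erase]; exact ⟨hfe, hf⟩, hF⟩
    have key2 : ∀ l, l < K → ∀ F ∈ [fun p : ℕ => (p : ℤ) ∣ 2 * (h l : ℤ) - sm h e,
       fun p : ℕ => Qe h e p ∣ 2 * (h l : ℤ) - sm h e - ((p : ℤ) - 1)], ¬ F p := by
      intro l hl F hF
      apply hcon
      rw [hL, List.mem_append, List.mem_flatMap, List.mem_flatMap]
      right
      exact ⟨l, List.mem_range.2 hl, hF⟩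
    refine ⟨fun f hf hfe => ?_, fun f hf hfe => ?_, fun f hf hfe => ?_, fun f hf hfe => ?_,
      fun l hl => ?_, fun l hl => ?_⟩
    · exact key1 f hf hfe (fun p : ℕ => (p : ℤ) ∣ sm h f - sm h e) (by simp)
    · exact key1 f hf hfe (fun p : ℕ => Qe h e p ∣ sm h f - sm h e - ((p : ℤ) - 1)) (by simp)
    · exact key1 f hf hfe (fun p : ℕ => sm h e - sm h f + ((p : ℤ) - 1) = 0) (by simp)
    · exact key1 f hf hfe (fun p : ℕ => sm h e - sm h f - ((p : ℤ) - 1) = 0) (by simp)
    · exact key2 l hl (fun p : ℕ => (p : ℤ) ∣ 2 * (h l : ℤ) - sm h e) (by simp)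
    · exact key2 l hl (fun p : ℕ => Qe h e p ∣ 2 * (h l : ℤ) - sm h e - ((p : ℤ) - 1)) (by simp)

end

end Pool.Agent.V8H9.GD
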