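import Pool.Agent.Y884.GR.Walk

/-!
# The gcd recursion: walks with exactly two nontrivial gcds

If `p | N`, `q | N + p - 1` and no smaller prime interferes, the nontrivial gcds are `p` and `q`.
-/

set_option autoImplicit false

namespace Pool.Agent.V8H9.GD

open Pool.Agent.Y884.GR

/-- the hypotheses for the walk of `N = n + (p + q - 2)` -/
structure Two (p q n : ℕ) : Prop where
  pp : p.Prime
  qp : q.Prime
  p2 : 2 < p
  grow : 3 * p < q + 1
  hit1 : p ∣ n + (p + q - 2)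
  hit2 : q ∣ n + (p + q - 2) + (p - 1)
  free0 : ∀ r : ℕ, r.Prime → r < p → ¬ r ∣ n + (p + q - 2)
  free1 : ∀ r : ℕ, r.Prime → r < q → ¬ r ∣ n + (p + q - 2) + (p - 1)
  free2 : ∀ r : ℕ, r.Prime → r < q → ¬ (r : ℤ) ∣ (n : ℤ) + (q - 1)
  pr1 : n.Prime
  pr2 : (n + 2 * (p + q - 2)).Prime
  big : p + q < n

namespace Two

variable {p q n : ℕ}

theorem walk (h : Two p q n) {a : ℕ → ℤ} (hw : Walk (n + (p + q - 2)) a) :
    IsLeast {l : ℕ | 2 ≤ l ∧ a l = 0} (n - 1) ∧ p < q + 2 - 2 * p ∧ q + 2 - 2 * p ≤ n - 1 ∧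
      Int.gcd (a (p - 1)) (V (n + (p + q - 2)) p) = p ∧
      Int.gcd (a (q + 2 - 2 * p - 1)) (V (n + (p + q - 2)) (q + 2 - 2 * p)) = q ∧
      ∀ l, 2 ≤ l → l ≤ n - 1 → l ≠ p → l ≠ q + 2 - 2 * p →
        Int.gcd (a (l - 1)) (V (n + (p + q - 2)) l) = 1 := by
  obtain ⟨hpp, hqp, hp2, hgrow, hhit1, hhit2, hf0, hf1, hf2, hpr1, hpr2, hbig⟩ := h
  obtain ⟨N, hN⟩ : ∃ N, N = n + (p + q - 2) := ⟨_, rfl⟩
  rw [← hN] at hw hhit1 hhit2 hf0 hf1 ⊢
  have hpodd : p % 2 = 1 := by
    rcases hpp.eq_two_or_odd with h | h <;> omega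
  have hqodd : q % 2 = 1 := by
    rcases hqp.eq_two_or_odd with h | h <;> omega
  have hfree : ∀ (P : ℕ), P.Prime → ∀ r : ℕ, r.Prime → r < P → ¬ r ∣ P := by
    intro P hP r hr hrP hd
    rcases (Nat.dvd_prime hP).mp hd with h1 | h1
    · exact hr.one_lt.ne' h1
    · omega
  -- phase 0
  have hrun0 := hw.phase (c := (N : ℤ)) le_rfl (T := 1) (T' := p - 1) (P1 := p) (P2 := p) le_rfl
    (by rw [hw.start]; push_cast; ring)
    (fun r hr hrp hd => hf0 r hr hrp (Int.natCast_dvd_natCast.mp hd))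
    (fun r hr hrp hd => hf0 r hr hrp (by
      have e : 2 * (N : ℤ) - N = N := by ring
      rw [e] at hd
      exact Int.natCast_dvd_natCast.mp hd))
    (by omega) (by push_cast [Nat.cast_sub (by omega : 1 ≤ p)]; linarith)
  have hst0 := hrun0 (p - 1) (by omega) le_rfl
  have ep : p - 1 + 1 = p := by omega
  obtain ⟨hg0, hnew0⟩ := hw.jump (c := (N : ℤ)) (T := p - 1) (p := p) (by omega) hst0 (by omega)
    (by rw [ep]; ring) (by
      have e : 2 * (N : ℤ) - N = N := by ring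
      rw [e]
      exact Int.natCast_dvd_natCast.mpr hhit1)
  rw [ep] at hg0 hnew0
  -- phase 1
  obtain ⟨t, ht⟩ : ∃ t, t = q + 2 - 2 * p := ⟨_, rfl⟩
  rw [← ht]
  have htp : p < t := by omega
  have ht1 : t + 2 * p = q + 2 := by omega
  have hcN : (N : ℤ) - ((p : ℤ) - 1) ≤ N := by
    have : (1 : ℤ) ≤ p := by exact_mod_cast hpp.one_lt.le
    linarith
  have e2 : 2 * (N : ℤ) - ((N : ℤ) - ((p : ℤ) - 1)) = ((N + (p - 1) : ℕ) : ℤ) := by
    push_cast [Nat.cast_sub (by omega : 1 ≤ p)]; ring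
  have e1 : (N : ℤ) - ((p : ℤ) - 1) = (n : ℤ) + (q - 1) := by
    rw [hN]; push_cast [Nat.cast_sub (by omega : 2 ≤ p + q)]; ring
  have hrun1 := hw.phase (c := (N : ℤ) - ((p : ℤ) - 1)) hcN (T := p) (T' := t - 1) (P1 := q)
    (P2 := q) (by omega) hnew0
    (by rw [e1]; exact hf2)
    (by
      intro r hr hrq hd
      rw [e2] at hd
      exact hf1 r hr hrq (Int.natCast_dvd_natCast.mp hd))
    (by omega) (by
      have : ((t - 1 : ℕ) : ℤ) = t - 1 := by push_cast [Nat.cast_sub (by omega : 1 ≤ t)]; ring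
      rw [this]
      have : (t : ℤ) + 2 * p = q + 2 := by exact_mod_cast ht1
      linarith)
  have hst1 := hrun1 (t - 1) (by omega) le_rfl
  have et : t - 1 + 1 = t := by omega
  obtain ⟨hg1, hnew1⟩ := hw.jump (c := (N : ℤ) - ((p : ℤ) - 1)) (T := t - 1) (p := q) (by omega)
    hst1 (by omega)
    (by
      rw [et]
      have : (t : ℤ) + 2 * p = q + 2 := by exact_mod_cast ht1
      linarith)
    (by rw [e2]; exact Int.natCast_dvd_natCast.mpr hhit2)
  rw [et] at hg1 hnew1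
  -- phase 2
  have e3 : (N : ℤ) - ((p : ℤ) - 1) - ((q : ℤ) - 1) = n := by
    rw [hN]; push_cast [Nat.cast_sub (by omega : 2 ≤ p + q)]; ring
  rw [e3] at hnew1
  have hnN : (n : ℤ) ≤ N := by rw [hN]; push_cast; omega
  have e4 : 2 * (N : ℤ) - n = ((n + 2 * (p + q - 2) : ℕ) : ℤ) := by
    rw [hN]; push_cast; ring
  have hrun2 := hw.phase (c := (n : ℤ)) hnN (T := t) (T' := n - 1) (P1 := n)
    (P2 := n + 2 * (p + q - 2)) (by omega) hnew1
    (fun r hr hrq hd => hfree _ hpr1 r hr hrq (Int.natCast_dvd_natCast.mp hd))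
    (by
      intro r hr hrq hd
      rw [e4] at hd
      exact hfree _ hpr2 r hr hrq (Int.natCast_dvd_natCast.mp hd))
    (by omega) (by
      have : ((n - 1 : ℕ) : ℤ) = n - 1 := by push_cast [Nat.cast_sub (by omega : 1 ≤ n)]; ring
      rw [this, hN]; push_cast; linarith)
  have htn : t ≤ n - 1 := by omega
  -- the gcd is the difference of successive values
  have hgcd : ∀ l, 2 ≤ l → (Int.gcd (a (l - 1)) (V N l) : ℤ) = a (l - 1) - a l := by
    intro l hl
    have := hw.step l hl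
    linarith
  refine ⟨⟨⟨by omega, ?_⟩, ?_⟩, htp, htn, hg0, hg1, ?_⟩
  · rw [hrun2 _ htn le_rfl]
    push_cast [Nat.cast_sub (by omega : 1 ≤ n)]; ring
  · rintro l ⟨hl1, hl2⟩
    by_contra hcon
    push Not at hcon
    have h3 : (n : ℤ) - l - 1 ≤ a l := by
      rcases Nat.lt_or_ge l t with h5 | h5
      · rcases Nat.lt_or_ge l p with h6 | h6
        · rw [hrun0 l (by omega) (by omega)]; linarith
        · rw [hrun1 l (by omega) (by omega), e1]
          have : (1 : ℤ) ≤ q := by exact_mod_cast hqp.one_lt.le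
          linarith
      · rw [hrun2 l h5 (by omega)]
    rw [hl2] at h3
    omega
  · intro l hl1 hl2 hlp hlt
    have hmain : (Int.gcd (a (l - 1)) (V N l) : ℤ) = 1 := by
      rw [hgcd l hl1]
      have el : ((l - 1 : ℕ) : ℤ) = l - 1 := by push_cast [Nat.cast_sub (by omega : 1 ≤ l)]; ring
      rcases Nat.lt_or_ge l t with h5 | h5
      · rcases Nat.lt_or_ge l p with h6 | h6
        · rw [hrun0 l (by omega) (by omega), hrun0 (l - 1) (by omega) (by omega), el]; ring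
        · rw [hrun1 l (by omega) (by omega), hrun1 (l - 1) (by omega) (by omega), el]; ring
      · rw [hrun2 l h5 hl2, hrun2 (l - 1) (by omega) (by omega), el]; ring
    exact_mod_cast hmain

end Two

end Pool.Agent.V8H9.GD
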