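import Pool.Agent.V8H9.GD.Res
import Pool.Agent.V8H9.GD.Wlk
import Pool.Agent.Y884.GR.Fam

/-!
# The family of parameters: many `N` with exactly two nontrivial gcds
-/

set_option autoImplicit false

namespace Pool.Agent.V8H9.GD

open Finset

variable {K y : ℕ} {h : ℕ → ℕ}

theorem two_of (H : Sh K y h) {u : ℕ × ℕ → ℕ} {e : ℕ × ℕ} (he : e ∈ Pr K)
    (hc : Cand y h e (u e)) {n : ℕ}
    (hn : ∀ r : ℕ, r.Prime → (r : ℤ) ≤ Qe h e (u e) → Rs K h u r n)
    (pr1 : (n + 2 * h e.1).Prime) (pr2 : (n + 2 * h e.2).Prime) (big : df h e + 2 < n) :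
    Two (u e) (df h e + 2 - u e) (n + 2 * h e.1) ∧
      n + 2 * h e.1 + (u e + (df h e + 2 - u e) - 2) = n + h e.1 + h e.2 := by
  obtain ⟨p, hp⟩ : ∃ p, p = u e := ⟨_, rfl⟩
  obtain ⟨q, hq⟩ : ∃ q, q = df h e + 2 - u e := ⟨_, rfl⟩
  have hstep := H.step (mem_Pr.1 he).1 (mem_Pr.1 he).2
  have hdf : df h e = h e.2 - h e.1 := rfl
  have h4 := hc.2.2.2.1
  have hpq : p + q = df h e + 2 := by omega
  have hQ : Qe h e (u e) = q := by unfold Qe; omega
  have hsm : sm h e = (h e.1 : ℤ) + h e.2 := rfl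
  rw [← hq, ← hp]
  have hN : n + 2 * h e.1 + (p + q - 2) = n + h e.1 + h e.2 := by omega
  have hpp : p.Prime := by rw [hp]; exact hc.1
  have hqp : q.Prime := by rw [hq]; exact hc.2.2.2.2
  have hp1 := hpp.one_lt
  have hpltq : p < q := by omega
  have hres : ∀ r : ℕ, r.Prime → r ≤ q → Rs K h u r n := fun r hr hrq =>
    hn r hr (by rw [hQ]; exact_mod_cast hrq)
  refine ⟨⟨hpp, hqp, by rw [hp]; exact hc.2.1, by omega, ?_, ?_, ?_, ?_, ?_, pr1, ?_, ?_⟩, hN⟩
  · rw [hN]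
    have h1 := (hres p hpp hpltq.le).t1 e he hp
    apply Int.natCast_dvd_natCast.1
    push_cast
    rw [hsm, ← add_assoc] at h1
    exact h1
  · rw [hN]
    have h1 := (hres q hqp le_rfl).t2 e he hQ.symm
    apply Int.natCast_dvd_natCast.1
    push_cast [Nat.cast_sub hp1.le]
    rw [hsm, ← add_assoc, ← hp] at h1
    exact h1
  · intro r hr hrp hd
    rw [hN] at hd
    apply (hres r hr (by omega)).t3 e he (by omega)
    have h1 := Int.natCast_dvd_natCast.2 hd
    push_cast at h1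
    rw [hsm, ← add_assoc]
    exact h1
  · intro r hr hrq hd
    rw [hN] at hd
    apply (hres r hr (by omega)).t4 e he (by rw [hQ]; exact_mod_cast hrq)
    have h1 := Int.natCast_dvd_natCast.2 hd
    push_cast [Nat.cast_sub hp1.le] at h1
    rw [hsm, ← add_assoc, ← hp]
    exact h1
  · intro r hr hrq hd
    apply (hres r hr (by omega)).t5 e he (by rw [hQ]; exact_mod_cast hrq)
    have e1 : (n : ℤ) + sm h e - ((u e : ℤ) - 1) = ((n + 2 * h e.1 : ℕ) : ℤ) + (q - 1) := by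
      have h2 : (q : ℤ) = df h e + 2 - u e := by rw [← hQ]; rfl
      rw [h2, df_eq H he, hsm]
      push_cast
      ring
    rw [e1]
    exact hd
  · have e1 : n + 2 * h e.1 + 2 * (p + q - 2) = n + 2 * h e.2 := by omega
    rw [e1]; exact pr2
  · omega

/-- the base progression -/
theorem exists_base {w : ℕ} {u : ℕ × ℕ → ℕ} (H : Sh K y h)
    (hdiv : ∀ i, i < K → w.factorial ∣ h i)
    (hwK : 3 * (K * K) + K ≤ w) (hwy : w < y)
    (hu : ∀ e ∈ Pr K, Cand y h e (u e) ∧ Un K h e (u e))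
    (hbi : ∀ e ∈ Pr K, ∀ f ∈ Pr K, e ≠ f → Bi h e f (u e) (u f)) (R : ℕ) :
    ∃ N0 : ℕ, ∀ r : ℕ, r.Prime → r ≤ R → Rs K h u r N0 := by
  classical
  have hex : ∀ q : ℕ, ∃ ρ : ℤ, q.Prime → Rs K h u q ρ := by
    intro q
    by_cases hq : q.Prime
    · obtain ⟨ρ, hρ⟩ := exists_res H hdiv hwK hwy hu hbi hq
      exact ⟨ρ, fun _ => hρ⟩
    · exact ⟨0, fun h => absurd h hq⟩
  choose ρ hρ using hex
  set T : Finset ℕ := (range (R + 1)).filter Nat.Prime with hT
  have hpair : Set.Pairwise (T : Set ℕ) (Function.onFun Nat.Coprime (fun p : ℕ => p)) := by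
    intro p hp q hq hpq
    have hp' : p.Prime := (mem_filter.1 hp).2
    have hq' : q.Prime := (mem_filter.1 hq).2
    exact (Nat.coprime_primes hp' hq').2 hpq
  obtain ⟨N0, hN0⟩ := Nat.chineseRemainderOfFinset (fun q : ℕ => ((ρ q) % q).toNat)
    (fun p : ℕ => p) T (fun p hp => (mem_filter.1 hp).2.ne_zero) hpair
  refine ⟨N0, fun q hq hqR => ?_⟩
  refine (hρ q hq).congr ?_
  have hqT : q ∈ T := mem_filter.2 ⟨mem_range.2 (by omega), hq⟩
  have h1 := hN0 q hqT
  have h2 : (q : ℤ) ∣ (((ρ q) % q).toNat : ℤ) - (N0 : ℤ) := Nat.modEq_iff_dvd.1 h1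
  rw [Int.toNat_of_nonneg (Int.emod_nonneg _ (by exact_mod_cast hq.ne_zero))] at h2
  have h3 : (q : ℤ) ∣ (ρ q) - (ρ q) % q := Int.dvd_self_sub_emod
  have h4 := dvd_add h2 h3
  have e : (ρ q % (q : ℤ) - (N0 : ℤ)) + (ρ q - ρ q % q) = -((N0 : ℤ) - ρ q) := by ring
  rw [e] at h4
  exact dvd_neg.mp h4

theorem base_congr {u : ℕ × ℕ → ℕ} {R N0 : ℕ} (hb : ∀ r : ℕ, r.Prime → r ≤ R → Rs K h u r N0)
    (ν : ℕ) : ∀ r : ℕ, r.Prime → r ≤ R →
      Rs K h u r ((R.factorial * ν + (N0 + R.factorial) : ℕ) : ℤ) := by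
  intro r hr hrR
  refine (hb r hr hrR).congr ?_
  have h1 : (r : ℤ) ∣ (R.factorial : ℤ) :=
    Int.natCast_dvd_natCast.mpr ((hr.dvd_factorial).mpr hrR)
  have e : (((R.factorial * ν + (N0 + R.factorial) : ℕ) : ℤ)) - N0 =
      (R.factorial : ℤ) * (ν + 1) := by push_cast; ring
  rw [e]
  exact h1.mul_right _

theorem base_adm {u : ℕ × ℕ → ℕ} {R N0 : ℕ} (hb : ∀ r : ℕ, r.Prime → r ≤ R → Rs K h u r N0)
    (hKR : K < R) (q : ℕ) (hq : q.Prime) :
    ∃ n : ℕ, ¬ q ∣ n ∧ ∀ i : Fin K,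
      ¬ q ∣ R.factorial * n + ((N0 + R.factorial) + 2 * h i) := by
  rcases Nat.lt_or_ge R q with hqk | hqk
  · have hnW : ¬ (q : ℤ) ∣ (R.factorial : ℤ) := by
      intro hd
      have := (hq.dvd_factorial).mp (Int.natCast_dvd_natCast.mp hd)
      omega
    have hq1 : (1 : ℤ) < q := by exact_mod_cast hq.one_lt
    obtain ⟨n, hn⟩ := Pool.Agent.H361R2.exists_avoid' (m := K + 1) hq (by omega)
        (Fin.cons 1 (fun _ => (R.factorial : ℤ)))
        (Fin.cons 0 (fun i : Fin K => (((N0 + R.factorial) + 2 * h i : ℕ) : ℤ))) (by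
          intro i
          refine Fin.cases ?_ (fun i => ?_) i
          · simp only [Fin.cons_zero]
            rintro ⟨h1, _⟩
            have := Int.le_of_dvd one_pos h1
            omega
          · simp only [Fin.cons_succ]
            rintro ⟨h1, _⟩
            exact hnW h1)
    refine ⟨n, ?_, ?_⟩
    · intro hd
      have := hn 0
      simp only [Fin.cons_zero, one_mul, add_zero] at this
      exact this (Int.natCast_dvd_natCast.2 hd)
    · intro i hd
      have := hn i.succ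
      simp only [Fin.cons_succ] at this
      exact this (by exact_mod_cast hd)
  · refine ⟨1, fun hd => hq.one_lt.ne' (Nat.dvd_one.1 hd), ?_⟩
    intro i hd
    have h3 := (base_congr hb 1 q hq hqk).t6 i i.2
    apply h3
    have h4 := Int.natCast_dvd_natCast.2 hd
    push_cast at h4 ⊢
    rw [← add_assoc] at h4
    exact h4

end Pool.Agent.V8H9.GD
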