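import Pool.Agent.V8H9.GD.Cfg
import Pool.Agent.V8H9.GD.Sel

/-!
# A positive proportion of the defects
-/

set_option autoImplicit false

namespace Pool.Agent.V8H9.GD

open Finset Filter Topology
open Pool.Agent.Y884.GR

open Classical in
/-- the number of `N ≤ X` with defect `m` -/
noncomputable def ct (X : ℝ) (m : ℕ) : ℕ := ((Icc 1 ⌊X⌋₊).filter (fun N : ℕ => Gd m N)).card

theorem Cfg.family {K y : ℕ} {h : ℕ → ℕ} {u : ℕ × ℕ → ℕ} {N0 : ℕ} (c : Cfg K y h u N0)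
    (hMT : MTall 2 K) (ε : ℝ) (hε : 0 < ε) :
    ∀ᶠ X : ℝ in atTop, ∃ e ∈ Pr K, X ^ (1 - ε) ≤ (ct X (df h e + 1) : ℝ) := by
  classical
  set R := 2 * 4 ^ K * y + 2 with hR
  set M : ℕ := R.factorial with hM
  have hM0 : 0 < M := Nat.factorial_pos _
  have hinj : ∀ i j : Fin K, i ≠ j → h i ≠ h j := by
    intro i j hij heq
    rcases lt_trichotomy (i : ℕ) j with h1 | h1 | h1
    · have := c.sh.step h1 j.2; have := c.sh.y0; omega
    · exact hij (Fin.ext h1)
    · have := c.sh.step h1 i.2; have := c.sh.y0; omega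
  obtain ⟨δ₀, hδ₀, hMT⟩ := hMT (fun _ => M) (fun i => (N0 + M) + 2 * h i) (fun _ => hM0)
    (fun i => by omega)
    (by
      intro i j hij heq
      have h1 := Nat.eq_of_mul_eq_mul_left hM0 heq
      exact hinj i j hij (by omega))
    (fun q hq => base_adm c.res c.big q hq)
  obtain ⟨x₀, hx₀⟩ := hMT (min δ₀ ε) (lt_min hδ₀ hε) (min_le_left _ _)
  set δ := min δ₀ ε with hδ
  have hδ0 : 0 < δ := lt_min hδ₀ hε
  have hδε : δ ≤ ε := min_le_right _ _
  have hWr : (1 : ℝ) ≤ M := by exact_mod_cast hM0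
  set T : ℝ := (K : ℝ) * K + 1 with hT
  have hT1 : 1 ≤ T := by rw [hT]; nlinarith [sq_nonneg (K : ℝ)]
  have htend : Filter.Tendsto (fun X : ℝ => X ^ (ε / 2)) Filter.atTop Filter.atTop :=
    tendsto_rpow_atTop (by linarith)
  filter_upwards [htend.eventually_ge_atTop (T * (2 * (M : ℝ))), eventually_ge_atTop 1,
    eventually_ge_atTop (2 * M * x₀), eventually_ge_atTop (2 * ((N0 : ℝ) + M + 2 * R))]
    with X hXX₁ hX1 hXx₀ hXN
  have hX0 : 0 < X := by linarith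
  have h2W : (1 : ℝ) ≤ 2 * M := by linarith
  have hy : x₀ ≤ X / (2 * M) := by
    rw [le_div_iff₀ (by linarith)]; linarith
  have hcount := hx₀ (X / (2 * M)) hy
  have hpow : T * X ^ (1 - ε) ≤ (X / (2 * M)) ^ (1 - δ / 2) := by
    rw [Real.div_rpow hX0.le (by linarith), le_div_iff₀ (by positivity)]
    have h1 : (2 * (M : ℝ)) ^ (1 - δ / 2) ≤ 2 * M := by
      calc (2 * (M : ℝ)) ^ (1 - δ / 2) ≤ (2 * (M : ℝ)) ^ (1 : ℝ) :=
            Real.rpow_le_rpow_of_exponent_le h2W (by linarith)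
        _ = 2 * M := Real.rpow_one _
    have hXp : 0 ≤ X ^ (1 - ε) := by positivity
    calc T * X ^ (1 - ε) * (2 * (M : ℝ)) ^ (1 - δ / 2) ≤ T * X ^ (1 - ε) * (2 * M) :=
          mul_le_mul_of_nonneg_left h1 (by positivity)
      _ = X ^ (1 - ε) * (T * (2 * M)) := by ring
      _ ≤ X ^ (1 - ε) * X ^ (ε / 2) := mul_le_mul_of_nonneg_left hXX₁ hXp
      _ = X ^ (1 - ε / 2) := by
          rw [← Real.rpow_add hX0]; congr 1; ring
      _ ≤ X ^ (1 - δ / 2) := Real.rpow_le_rpow_of_exponent_le hX1 (by linarith)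
  -- pigeonhole over the pairs
  by_contra hcon
  push Not at hcon
  set A : Finset ℕ := (Icc 1 ⌊X / (2 * (M : ℝ))⌋₊).filter (fun n =>
    (∀ p : ℕ, p.Prime → p ∣ n → (X / (2 * (M : ℝ))) ^ δ < p) ∧
      2 ≤ (univ.filter (fun i : Fin K => (M * n + ((N0 + M) + 2 * h i)).Prime)).card) with hA
  set P : ℕ × ℕ → Finset ℕ := fun e => (Icc 1 ⌊X / (2 * (M : ℝ))⌋₊).filter (fun n =>
    (M * n + (N0 + M) + 2 * h e.1).Prime ∧ (M * n + (N0 + M) + 2 * h e.2).Prime) with hP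
  have hsub : A ⊆ (Pr K).biUnion P := by
    intro n hn
    obtain ⟨hn1, -, hn2⟩ := mem_filter.1 hn
    obtain ⟨i, hi, j, hj, hij⟩ := one_lt_card.1 (show 1 < _ from hn2)
    have hi' := (mem_filter.1 hi).2
    have hj' := (mem_filter.1 hj).2
    rw [← add_assoc] at hi' hj'
    rw [mem_biUnion]
    rcases lt_trichotomy (i : ℕ) j with h1 | h1 | h1
    · exact ⟨(i, j), mem_Pr.2 ⟨h1, j.2⟩, mem_filter.2 ⟨hn1, hi', hj'⟩⟩
    · exact absurd (Fin.ext h1) hij
    · exact ⟨(j, i), mem_Pr.2 ⟨h1, i.2⟩, mem_filter.2 ⟨hn1, hj', hi'⟩⟩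
  have hPc : ∀ e ∈ Pr K, ((P e).card : ℝ) < X ^ (1 - ε) := by
    intro e he
    refine lt_of_le_of_lt ?_ (hcon e he)
    rw [Nat.cast_le]
    unfold ct
    apply card_le_card_of_injOn (fun ν => M * ν + (N0 + M) + h e.1 + h e.2)
    · intro ν hν
      obtain ⟨hν1, hν2, hν3⟩ := mem_filter.1 (mem_coe.1 hν)
      rw [mem_Icc] at hν1
      have hνx : (ν : ℝ) ≤ X / (2 * M) :=
        (Nat.cast_le.2 hν1.2).trans (Nat.floor_le (by positivity))
      rw [le_div_iff₀ (by linarith)] at hνx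
      rw [mem_coe, mem_filter, mem_Icc]
      have hh1 := c.sh.le ((mem_Pr.1 he).1.trans (mem_Pr.1 he).2)
      have hh2 := c.sh.le (mem_Pr.1 he).2
      have hh : h e.1 + h e.2 ≤ 2 * R := by omega
      have hhr : (h e.1 : ℝ) + h e.2 ≤ 2 * R := by exact_mod_cast hh
      refine ⟨⟨?_, ?_⟩, c.prime_pair ν he hν2 hν3 hν1.1⟩
      · have : 1 ≤ M := hM0
        dsimp only
        omega
      · apply Nat.le_floor
        push_cast
        linarith
    · intro a _ b _ hab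
      have h1 : M * a + (N0 + M) + h e.1 + h e.2 = M * b + (N0 + M) + h e.1 + h e.2 := hab
      have h2 : M * a = M * b := by omega
      exact Nat.eq_of_mul_eq_mul_left hM0 h2
  have h5 : (A.card : ℝ) ≤ K * K * X ^ (1 - ε) := by
    calc (A.card : ℝ) ≤ (((Pr K).biUnion P).card : ℝ) := by exact_mod_cast card_le_card hsub
      _ ≤ ∑ e ∈ Pr K, ((P e).card : ℝ) := by exact_mod_cast card_biUnion_le
      _ ≤ ∑ e ∈ Pr K, X ^ (1 - ε) := sum_le_sum fun e he => (hPc e he).le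
      _ = (Pr K).card * X ^ (1 - ε) := by rw [sum_const, nsmul_eq_mul]
      _ ≤ K * K * X ^ (1 - ε) := by
          apply mul_le_mul_of_nonneg_right _ (by positivity)
          exact_mod_cast Pr_card K
  have h6 : 0 < X ^ (1 - ε) := by positivity
  have h7 : T * X ^ (1 - ε) ≤ (A.card : ℝ) := hpow.trans hcount
  have h8 : T * X ^ (1 - ε) = K * K * X ^ (1 - ε) + X ^ (1 - ε) := by rw [hT]; ring
  linarith

/-- one scale -/
theorem scale {K w y : ℕ} (hMT : MTall 2 K) (hwK : 3 * (K * K) + K + 2 ≤ w) (hwy : w < y)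
    (x : ℕ) (hx : 2 * 4 ^ K * y + 2 ≤ x) (Bad : Finset ℕ)
    (hG : ∀ m : ℕ, Exc ((16 * (K * K) + 2 * K) * (20 * 4 ^ K + 1) + 1) m →
      m ≤ 2 * 4 ^ K * y + 2 → m - 2 ∈ Bad) (ε : ℝ) (hε : 0 < ε) :
    ∀ᶠ X : ℝ in atTop, y / w.factorial ≤
      K * (((Icc 1 x).filter (fun m => X ^ (1 - ε) ≤ (ct X m : ℝ))).card + Bad.card) := by
  classical
  have key : ∀ D ∈ (Icc 1 x).powerset, ∀ᶠ X : ℝ in atTop,
      K * (D ∪ Bad).card < y / w.factorial → ∃ e ∈ Icc 1 x, e ∉ D ∧ e + 1 ≤ x ∧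
        X ^ (1 - ε) ≤ (ct X (e + 1) : ℝ) := by
    intro D _
    by_cases hD : K * (D ∪ Bad).card < y / w.factorial
    · obtain ⟨h, u, N0, hc, hE⟩ := exists_cfg hwK hwy (D ∪ Bad) hD (by
        intro m _ hm _ hmE hex
        exact hmE (mem_union_right _ (hG m hex hm)))
      filter_upwards [hc.family hMT ε hε] with X hX _
      obtain ⟨e, he, heX⟩ := hX
      have hb := bnds hc.sh he
      have h3 : df h e ≤ 2 * 4 ^ K * y := by exact_mod_cast hb.2.2.1
      have hst := hc.sh.step (mem_Pr.1 he).1 (mem_Pr.1 he).2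
      have hdf : df h e = h e.2 - h e.1 := rfl
      have hy := hc.sh.y0
      exact ⟨df h e, mem_Icc.2 ⟨by omega, by omega⟩,
        fun hh => hE e he (mem_union_left _ hh), by omega, heX⟩
    · filter_upwards with X hX
      exact absurd hX hD
  filter_upwards [(eventually_all_finset _).2 key] with X hX
  by_contra hcon
  push Not at hcon
  set G := (Icc 1 x).filter (fun m => X ^ (1 - ε) ≤ (ct X m : ℝ)) with hGd
  set D := (Icc 1 x).filter (fun m => m + 1 ≤ x ∧ X ^ (1 - ε) ≤ (ct X (m + 1) : ℝ)) with hDd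
  have h1 : D.card ≤ G.card := by
    apply card_le_card_of_injOn (fun m => m + 1)
    · intro m hm
      obtain ⟨_, h3, h4⟩ := mem_filter.1 (mem_coe.1 hm)
      exact mem_coe.2 (mem_filter.2 ⟨mem_Icc.2 ⟨Nat.le_add_left 1 m, h3⟩, h4⟩)
    · intro a _ b _ hab
      exact Nat.succ_injective hab
  have h2 : K * (D ∪ Bad).card < y / w.factorial := by
    refine lt_of_le_of_lt (Nat.mul_le_mul_left K ?_) hcon
    exact (card_union_le _ _).trans (Nat.add_le_add_right h1 _)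
  obtain ⟨e, he1, he2, he3, he4⟩ := hX D (mem_powerset.2 (filter_subset _ _)) h2
  exact he2 (mem_filter.2 ⟨he1, he3, he4⟩)

end Pool.Agent.V8H9.GD
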