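import Mathlib

/-!
# A conflict-free choice of primes for all pairs of shifts
-/

set_option autoImplicit false

namespace Pool.Agent.V8H9.GD

open Finset

/-- greedy choice -/
theorem greedy {I : Type} [DecidableEq I] (R : I → I → ℕ → ℕ → Prop)
    (hsymm : ∀ e f p q, R e f p q → R f e q p) (S : I → Finset ℕ) (c : ℕ) (A : Finset I)
    (hbad : ∀ e ∈ A, ∀ f ∈ A, e ≠ f → ∀ q ∈ S f, ∀ B : Finset ℕ, B ⊆ S e →
      (∀ p ∈ B, ¬ R e f p q) → B.card ≤ c)
    (hS : ∀ e ∈ A, A.card * c < (S e).card) :
    ∃ u : I → ℕ, (∀ e ∈ A, u e ∈ S e) ∧ ∀ e ∈ A, ∀ f ∈ A, e ≠ f → R e f (u e) (u f) := by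
  classical
  suffices h : ∀ B : Finset I, B ⊆ A → ∃ u : I → ℕ, (∀ e ∈ B, u e ∈ S e) ∧
      ∀ e ∈ B, ∀ f ∈ B, e ≠ f → R e f (u e) (u f) from h A (Subset.refl A)
  intro B
  induction B using Finset.induction_on with
  | empty => intro _; exact ⟨fun _ => 0, by simp, by simp⟩
  | insert e B he ih =>
    intro hBA
    obtain ⟨u, hu1, hu2⟩ := ih ((subset_insert e B).trans hBA)
    have heA : e ∈ A := hBA (mem_insert_self e B)
    obtain ⟨p, hpS, hp⟩ : ∃ p ∈ S e, ∀ f ∈ B, R e f p (u f) := by
      by_contra hcon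
      push Not at hcon
      have h1 : S e ⊆ B.biUnion (fun f => (S e).filter (fun p => ¬ R e f p (u f))) := by
        intro p hp
        obtain ⟨f, hf, hR⟩ := hcon p hp
        rw [mem_biUnion]
        exact ⟨f, hf, mem_filter.2 ⟨hp, hR⟩⟩
      have h2 : (B.biUnion (fun f => (S e).filter (fun p => ¬ R e f p (u f)))).card ≤ B.card * c := by
        refine card_biUnion_le.trans ?_
        rw [← smul_eq_mul, ← sum_const]
        refine sum_le_sum fun f hf => ?_
        refine hbad e heA f (hBA (mem_insert_of_mem hf)) ?_ (u f) (hu1 f hf) _ (filter_subset _ _) ?_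
        · rintro rfl; exact he hf
        · intro p hp; exact (mem_filter.1 hp).2
      have h3 := (card_le_card h1).trans h2
      have h4 := hS e heA
      have h5 : B.card * c ≤ A.card * c :=
        Nat.mul_le_mul_right c (card_le_card ((subset_insert e B).trans hBA))
      omega
    refine ⟨fun f => if f = e then p else u f, ?_, ?_⟩
    · intro f hf
      dsimp only
      split_ifs with h1
      · subst h1; exact hpS
      · exact hu1 f (mem_of_mem_insert_of_ne hf h1)
    · intro f hf f' hf' hne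
      dsimp only
      by_cases h1 : f = e
      · have h2 : f' ≠ e := fun h => hne (h1.trans h.symm)
        rw [if_pos h1, if_neg h2, h1]
        exact hp f' (mem_of_mem_insert_of_ne hf' h2)
      · rw [if_neg h1]
        by_cases h2 : f' = e
        · rw [if_pos h2, h2]
          exact hsymm _ _ _ _ (hp f (mem_of_mem_insert_of_ne hf h1))
        · rw [if_neg h2]
          exact hu2 f (mem_of_mem_insert_of_ne hf h1) f' (mem_of_mem_insert_of_ne hf' h2) hne

/-- An affine divisibility has few solutions. -/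
theorem few_div (B : Finset ℕ) (a b c d : ℤ) (T y : ℕ) (hy : 0 < y)
    (hr : ∀ p ∈ B, (y : ℤ) ≤ a * p + b) (hz : ∀ p ∈ B, |c * p + d| ≤ T * y)
    (hnd : ∀ t : ℤ, c - t * a = 0 → d - t * b ≠ 0)
    (hdiv : ∀ p ∈ B, (a * p + b) ∣ (c * p + d)) : B.card ≤ 2 * T + 1 := by
  classical
  have hmap : ∀ p ∈ B, (c * p + d) / (a * p + b) ∈ Icc (-(T : ℤ)) T := by
    intro p hp
    obtain ⟨t, ht⟩ := hdiv p hp
    have h1 := hr p hp
    have hy' : (0 : ℤ) < y := by exact_mod_cast hy
    have hpos : 0 < a * (p : ℤ) + b := by linarith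
    have h2 := hz p hp
    rw [ht, Int.mul_ediv_cancel_left _ hpos.ne']
    rw [ht, abs_mul, abs_of_pos hpos] at h2
    have h3 : (y : ℤ) * |t| ≤ T * y :=
      (mul_le_mul_of_nonneg_right h1 (abs_nonneg t)).trans h2
    have h4 : |t| ≤ T := by
      by_contra hcon
      push Not at hcon
      have : (T : ℤ) * y < y * |t| := by
        rw [mul_comm]; exact mul_lt_mul_of_pos_left hcon hy'
      linarith
    rw [mem_Icc]
    exact abs_le.1 h4
  have hinj : Set.InjOn (fun p : ℕ => (c * (p : ℤ) + d) / (a * p + b)) B := by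
    intro p hp q hq hpq
    dsimp only at hpq
    obtain ⟨t, ht⟩ := hdiv p hp
    obtain ⟨s, hs⟩ := hdiv q hq
    have hy' : (0 : ℤ) < y := by exact_mod_cast hy
    have hpos : 0 < a * (p : ℤ) + b := by linarith [hr p hp]
    have hpos' : 0 < a * (q : ℤ) + b := by linarith [hr q hq]
    rw [ht, hs, Int.mul_ediv_cancel_left _ hpos.ne', Int.mul_ediv_cancel_left _ hpos'.ne'] at hpq
    subst hpq
    have h1 : (c - t * a) * (p : ℤ) = t * b - d := by linear_combination ht
    have h2 : (c - t * a) * (q : ℤ) = t * b - d := by linear_combination hs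
    by_cases h0 : c - t * a = 0
    · exfalso
      apply hnd t h0
      rw [h0, zero_mul] at h1
      linarith
    · have h3 : (c - t * a) * (p : ℤ) = (c - t * a) * q := h1.trans h2.symm
      have := mul_left_cancel₀ h0 h3
      exact_mod_cast this
  calc B.card ≤ (Icc (-(T : ℤ)) T).card := card_le_card_of_injOn _ hmap hinj
    _ = 2 * T + 1 := by rw [Int.card_Icc]; omega

end Pool.Agent.V8H9.GD
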