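import Pool.Agent.V8H9.GD.Bis

/-!
# The residues of the base
-/

set_option autoImplicit false

namespace Pool.Agent.V8H9.GD

open Finset

variable {K y : ℕ} {h : ℕ → ℕ}

/-- what we ask of the base `ρ` modulo a prime `r` -/
structure Rs (K : ℕ) (h : ℕ → ℕ) (u : ℕ × ℕ → ℕ) (r : ℕ) (ρ : ℤ) : Prop where
  t1 : ∀ e ∈ Pr K, r = u e → (r : ℤ) ∣ ρ + sm h e
  t2 : ∀ e ∈ Pr K, (r : ℤ) = Qe h e (u e) → (r : ℤ) ∣ ρ + sm h e + ((u e : ℤ) - 1)
  t3 : ∀ e ∈ Pr K, r < u e → ¬ (r : ℤ) ∣ ρ + sm h e
  t4 : ∀ e ∈ Pr K, (r : ℤ) < Qe h e (u e) → ¬ (r : ℤ) ∣ ρ + sm h e + ((u e : ℤ) - 1)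
  t5 : ∀ e ∈ Pr K, (r : ℤ) < Qe h e (u e) → ¬ (r : ℤ) ∣ ρ + sm h e - ((u e : ℤ) - 1)
  t6 : ∀ l, l < K → ¬ (r : ℤ) ∣ ρ + 2 * h l

theorem Rs.congr {u : ℕ × ℕ → ℕ} {r : ℕ} {ρ n : ℤ} (H : Rs K h u r ρ) (hd : (r : ℤ) ∣ n - ρ) :
    Rs K h u r n := by
  have key : ∀ z : ℤ, (r : ℤ) ∣ ρ + z ↔ (r : ℤ) ∣ n + z := by
    intro z
    have e : n + z = (ρ + z) + (n - ρ) := by ring
    rw [e]
    exact (dvd_add_left hd).symm
  have k4 : ∀ z w : ℤ, (r : ℤ) ∣ ρ + z + w ↔ (r : ℤ) ∣ n + z + w := by
    intro z w
    rw [add_assoc, add_assoc]; exact key _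
  have k5 : ∀ z w : ℤ, (r : ℤ) ∣ ρ + z - w ↔ (r : ℤ) ∣ n + z - w := by
    intro z w
    rw [add_sub_assoc, add_sub_assoc]; exact key _
  obtain ⟨t1, t2, t3, t4, t5, t6⟩ := H
  exact ⟨fun e he hr => (key _).1 (t1 e he hr), fun e he hr => (k4 _ _).1 (t2 e he hr),
    fun e he hr hc => t3 e he hr ((key _).2 hc), fun e he hr hc => t4 e he hr ((k4 _ _).2 hc),
    fun e he hr hc => t5 e he hr ((k5 _ _).2 hc), fun l hl hc => t6 l hl ((key _).2 hc)⟩

/-- avoiding finitely many residues -/
theorem avoid {r : ℕ} (hr : 0 < r) (V : Finset ℤ) (hV : V.card < r) :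
    ∃ ρ : ℤ, ∀ v ∈ V, ¬ (r : ℤ) ∣ ρ + v := by
  classical
  have hr' : (0 : ℤ) < r := by exact_mod_cast hr
  obtain ⟨ρ, hρ, hρ'⟩ : ∃ ρ ∈ Ico (0 : ℤ) (r : ℤ),
      ρ ∉ V.image (fun v : ℤ => (-v) % (r : ℤ)) := by
    by_contra hcon
    push Not at hcon
    have h1 := card_le_card (show Ico (0 : ℤ) (r : ℤ) ⊆
      V.image (fun v : ℤ => (-v) % (r : ℤ)) from hcon)
    rw [Int.card_Ico] at h1
    have h2 := card_image_le (s := V) (f := fun v : ℤ => (-v) % (r : ℤ))
    omega
  refine ⟨ρ, fun v hv hd => hρ' (mem_image.2 ⟨v, hv, ?_⟩)⟩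
  rw [mem_Ico] at hρ
  have h1 : (-v) % (r : ℤ) = ρ % r := by
    refine (Int.emod_eq_emod_iff_emod_sub_eq_zero).2 ?_
    apply Int.emod_eq_zero_of_dvd
    have e : -v - ρ = -(ρ + v) := by ring
    rw [e]
    exact (dvd_neg).2 hd
  rw [h1, Int.emod_eq_of_lt hρ.1 hρ.2]

theorem exists_res {w : ℕ} {u : ℕ × ℕ → ℕ} (H : Sh K y h) (hdiv : ∀ i, i < K → w.factorial ∣ h i)
    (hwK : 3 * (K * K) + K ≤ w) (hwy : w < y)
    (hu : ∀ e ∈ Pr K, Cand y h e (u e) ∧ Un K h e (u e))
    (hbi : ∀ e ∈ Pr K, ∀ f ∈ Pr K, e ≠ f → Bi h e f (u e) (u f)) {r : ℕ} (hr : r.Prime) :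
    ∃ ρ : ℤ, Rs K h u r ρ := by
  classical
  have hrI : Prime (r : ℤ) := Nat.prime_iff_prime_int.1 hr
  have hr1 : (1 : ℤ) < r := by exact_mod_cast hr.one_lt
  have hnd1 : ¬ (r : ℤ) ∣ 1 := fun hd => by have := Int.le_of_dvd one_pos hd; omega
  -- the primes `p` are smaller than the `Q`
  have hpQ : ∀ e ∈ Pr K, (u e : ℤ) < Qe h e (u e) := by
    intro e he
    have h4 : 4 * ((u e : ℕ) : ℤ) ≤ df h e := by exact_mod_cast (hu e he).1.2.2.2.1
    have h0 : (0 : ℤ) ≤ u e := by positivity
    unfold Qe
    linarith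
  have hQp : ∀ e ∈ Pr K, ∃ Q : ℕ, Q.Prime ∧ Qe h e (u e) = Q := by
    intro e he
    refine ⟨_, (hu e he).1.2.2.2.2, ?_⟩
    have h4 := (hu e he).1.2.2.2.1
    unfold Qe
    omega
  by_cases hrw : r ≤ w
  · -- small primes
    have hdl : ∀ l, l < K → (r : ℤ) ∣ h l := by
      intro l hl
      exact Int.natCast_dvd_natCast.2 (((hr.dvd_factorial).2 hrw).trans (hdiv l hl))
    have hds : ∀ e ∈ Pr K, (r : ℤ) ∣ sm h e ∧ (r : ℤ) ∣ df h e := by
      intro e he
      have h1 := hdl e.1 ((mem_Pr.1 he).1.trans (mem_Pr.1 he).2)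
      have h2 := hdl e.2 (mem_Pr.1 he).2
      refine ⟨dvd_add h1 h2, ?_⟩
      rw [df_eq H he]
      exact dvd_sub h2 h1
    have hlt : ∀ e ∈ Pr K, (r : ℤ) < u e ∧ (r : ℤ) < Qe h e (u e) := by
      intro e he
      have h1 := cand_bnds H he (hu e he).1
      have h2 : (r : ℤ) < y := by exact_mod_cast hrw.trans_lt hwy
      exact ⟨by linarith, by linarith⟩
    have hndu : ∀ e ∈ Pr K, ¬ (r : ℤ) ∣ u e := by
      intro e he hd
      have h1 := Int.natCast_dvd_natCast.1 hd
      have h2 := (Nat.prime_dvd_prime_iff_eq hr (hu e he).1.1).1 h1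
      have h3 := (hlt e he).1
      rw [h2] at h3
      exact lt_irrefl _ h3
    have hndQ : ∀ e ∈ Pr K, ¬ (r : ℤ) ∣ Qe h e (u e) := by
      intro e he hd
      obtain ⟨Q, hQ, hQe⟩ := hQp e he
      have h3 := (hlt e he).2
      rw [hQe] at hd h3
      have h1 := Int.natCast_dvd_natCast.1 hd
      have h2 := (Nat.prime_dvd_prime_iff_eq hr hQ).1 h1
      rw [h2] at h3
      exact lt_irrefl _ h3
    refine ⟨1, ⟨?_, ?_, ?_, ?_, ?_, ?_⟩⟩
    · intro e he hre
      have := (hlt e he).1
      rw [hre] at this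
      exact absurd this (lt_irrefl _)
    · intro e he hre
      have := (hlt e he).2
      rw [← hre] at this
      exact absurd this (lt_irrefl _)
    · intro e he _ hd
      exact hnd1 ((dvd_add_left (hds e he).1).1 hd)
    · intro e he _ hd
      apply hndu e he
      have e1 : 1 + sm h e + ((u e : ℤ) - 1) = u e + sm h e := by ring
      rw [e1] at hd
      exact (dvd_add_left (hds e he).1).1 hd
    · intro e he _ hd
      apply hndQ e he
      have e1 : 1 + sm h e - ((u e : ℤ) - 1) = Qe h e (u e) + (sm h e - df h e) := by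
        unfold Qe; ring
      rw [e1] at hd
      exact (dvd_add_left (dvd_sub (hds e he).1 (hds e he).2)).1 hd
    · intro l hl hd
      exact hnd1 ((dvd_add_left ((hdl l hl).mul_left 2)).1 hd)
  · by_cases hrp : ∃ e ∈ Pr K, r = u e
    · obtain ⟨e, he, hre⟩ := hrp
      have hUe := (hu e he).2
      have hd1 : ¬ (r : ℤ) ∣ (u e : ℤ) - 1 := by
        rw [← hre]
        intro hd
        have := Int.le_of_dvd (by linarith) hd
        linarith
      refine ⟨-sm h e, ⟨?_, ?_, ?_, ?_, ?_, ?_⟩⟩
      · intro f hf hrf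
        by_cases hfe : f = e
        · rw [hfe]; simp
        · exact absurd (hre.symm.trans hrf) (hbi e he f hf (Ne.symm hfe)).b5
      · intro f hf hrf
        by_cases hfe : f = e
        · rw [hfe] at hrf
          have := hpQ e he
          rw [← hrf, ← hre] at this
          exact absurd this (lt_irrefl _)
        · refine absurd ?_ (hbi e he f hf (Ne.symm hfe)).b6
          rw [← hrf, hre]
      · intro f hf hrf
        by_cases hfe : f = e
        · rw [hfe, ← hre] at hrf
          exact absurd hrf (lt_irrefl _)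
        · have := hUe.u1 f hf hfe
          rw [← hre] at this
          have e1 : -sm h e + sm h f = sm h f - sm h e := by ring
          rw [e1]; exact this
      · intro f hf _
        by_cases hfe : f = e
        · rw [hfe]
          have e1 : -sm h e + sm h e + ((u e : ℤ) - 1) = (u e : ℤ) - 1 := by ring
          rw [e1]; exact hd1
        · have := (hbi e he f hf (Ne.symm hfe)).b1
          rw [← hre] at this
          have e1 : -sm h e + sm h f = sm h f - sm h e := by ring
          rw [e1]; exact this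
      · intro f hf _
        by_cases hfe : f = e
        · rw [hfe]
          have e1 : -sm h e + sm h e - ((u e : ℤ) - 1) = -((u e : ℤ) - 1) := by ring
          rw [e1, dvd_neg]; exact hd1
        · have := (hbi e he f hf (Ne.symm hfe)).b2
          rw [← hre] at this
          have e1 : -sm h e + sm h f = sm h f - sm h e := by ring
          rw [e1]; exact this
      · intro l hl
        have := hUe.u5 l hl
        rw [← hre] at this
        have e1 : -sm h e + 2 * (h l : ℤ) = 2 * (h l : ℤ) - sm h e := by ring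
        rw [e1]; exact this
    · by_cases hrq : ∃ e ∈ Pr K, (r : ℤ) = Qe h e (u e)
      · obtain ⟨e, he, hre⟩ := hrq
        have hUe := (hu e he).2
        refine ⟨-sm h e - ((u e : ℤ) - 1), ⟨?_, ?_, ?_, ?_, ?_, ?_⟩⟩
        · intro f hf hrf
          exact absurd ⟨f, hf, hrf⟩ hrp
        · intro f hf hrf
          by_cases hfe : f = e
          · rw [hfe]
            have e1 : -sm h e - ((u e : ℤ) - 1) + sm h e + ((u e : ℤ) - 1) = 0 := by ring
            rw [e1]; exact dvd_zero _
          · exact absurd (hre.symm.trans hrf) (hbi e he f hf (Ne.symm hfe)).b7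
        · intro f hf hrf
          by_cases hfe : f = e
          · rw [hfe] at hrf
            have h1 := hpQ e he
            rw [← hre] at h1
            have h2 : (r : ℤ) < u e := by exact_mod_cast hrf
            exact absurd (h1.trans h2) (lt_irrefl _)
          · have := hUe.u2 f hf hfe
            rw [← hre] at this
            have e1 : -sm h e - ((u e : ℤ) - 1) + sm h f = sm h f - sm h e - ((u e : ℤ) - 1) := by
              ring
            rw [e1]; exact this
        · intro f hf hrf
          by_cases hfe : f = e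
          · rw [hfe, ← hre] at hrf
            exact absurd hrf (lt_irrefl _)
          · have := (hbi e he f hf (Ne.symm hfe)).b3
            rw [← hre] at this
            have e1 : -sm h e - ((u e : ℤ) - 1) + sm h f + ((u f : ℤ) - 1) =
              sm h f - sm h e - ((u e : ℤ) - 1) + ((u f : ℤ) - 1) := by ring
            rw [e1]; exact this
        · intro f hf hrf
          by_cases hfe : f = e
          · rw [hfe, ← hre] at hrf
            exact absurd hrf (lt_irrefl _)
          · have := (hbi e he f hf (Ne.symm hfe)).b4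
            rw [← hre] at this
            have e1 : -sm h e - ((u e : ℤ) - 1) + sm h f - ((u f : ℤ) - 1) =
              sm h f - sm h e - ((u e : ℤ) - 1) - ((u f : ℤ) - 1) := by ring
            rw [e1]; exact this
        · intro l hl
          have := hUe.u6 l hl
          rw [← hre] at this
          have e1 : -sm h e - ((u e : ℤ) - 1) + 2 * (h l : ℤ) =
            2 * (h l : ℤ) - sm h e - ((u e : ℤ) - 1) := by ring
          rw [e1]; exact this
      · -- the other primes
        set V : Finset ℤ := (Pr K).image (fun e => sm h e) ∪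
          ((Pr K).image (fun e => sm h e + ((u e : ℤ) - 1)) ∪
          ((Pr K).image (fun e => sm h e - ((u e : ℤ) - 1)) ∪
            (range K).image (fun l => 2 * (h l : ℤ)))) with hV
        have hVc : V.card < r := by
          have h1 : V.card ≤ K * K + (K * K + (K * K + K)) := by
            rw [hV]
            refine (card_union_le _ _).trans (add_le_add (card_image_le.trans (Pr_card K)) ?_)
            refine (card_union_le _ _).trans (add_le_add (card_image_le.trans (Pr_card K)) ?_)
            refine (card_union_le _ _).trans (add_le_add (card_image_le.trans (Pr_card K)) ?_)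
            refine card_image_le.trans ?_
            rw [card_range]
          omega
        obtain ⟨ρ, hρ⟩ := avoid hr.pos V hVc
        refine ⟨ρ, ⟨?_, ?_, ?_, ?_, ?_, ?_⟩⟩
        · intro f hf hrf
          exact absurd ⟨f, hf, hrf⟩ hrp
        · intro f hf hrf
          exact absurd ⟨f, hf, hrf⟩ hrq
        · intro f hf _
          apply hρ
          rw [hV, mem_union]; left
          exact mem_image_of_mem _ hf
        · intro f hf _
          rw [add_assoc]
          apply hρ
          rw [hV, mem_union, mem_union]; right; left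
          exact mem_image_of_mem _ hf
        · intro f hf _
          rw [add_sub_assoc]
          apply hρ
          rw [hV, mem_union, mem_union, mem_union]; right; right; left
          exact mem_image_of_mem _ hf
        · intro l hl
          apply hρ
          rw [hV, mem_union, mem_union, mem_union]; right; right; right
          exact mem_image_of_mem _ (mem_range.2 hl)

end Pool.Agent.V8H9.GD
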